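import Mathlib

/-!
# Eigenvalues on tensor products and quotients
-/

set_option autoImplicit false

namespace Pool.Agent.N876.FL

open TensorProduct Polynomial

variable {K : Type} [Field K] [IsAlgClosed K]

omit [IsAlgClosed K] in
theorem inj_of_not_eig {M : Type} [AddCommGroup M] [Module K M] {F : Module.End K M} {α : K}
    (h : ¬ F.HasEigenvalue α) : Function.Injective (F - α • (1 : Module.End K M)) := by
  rw [← LinearMap.ker_eq_bot]
  have h2 : Module.End.eigenspace F α = ⊥ := by
    by_contra h3
    exact h h3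
  rw [Module.End.eigenspace_def] at h2
  exact h2

section tens

variable {V U : Type} [AddCommGroup V] [Module K V] [FiniteDimensional K V] [AddCommGroup U]
  [Module K U] [FiniteDimensional K U]

omit [IsAlgClosed K] [FiniteDimensional K U] [FiniteDimensional K V] in
theorem eig_rTensor {F : Module.End K V} {α : K}
    (h : Module.End.HasEigenvalue (TensorProduct.map F (1 : Module.End K U)) α) : F.HasEigenvalue α := by
  by_contra h0
  have h1 := inj_of_not_eig h0
  have h2 : Function.Injective ((F - α • (1 : Module.End K V)).rTensor U) :=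
    Module.Flat.rTensor_preserves_injective_linearMap _ h1
  obtain ⟨v, hv⟩ := h.exists_hasEigenvector
  apply hv.2
  apply h2
  rw [map_zero, LinearMap.rTensor_sub, LinearMap.rTensor_smul, LinearMap.sub_apply,
    LinearMap.smul_apply]
  have h3 : (LinearMap.rTensor U F) v = α • v := hv.apply_eq_smul
  have h4 : (LinearMap.rTensor U (1 : Module.End K V)) v = v := by
    have : (LinearMap.rTensor U (1 : Module.End K V)) = LinearMap.id := LinearMap.rTensor_id U V
    rw [this]
    rfl
  rw [h3, h4, sub_self]

omit [IsAlgClosed K] [FiniteDimensional K V] [FiniteDimensional K U] in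
theorem eig_lTensor {G : Module.End K U} {β : K}
    (h : Module.End.HasEigenvalue (TensorProduct.map (1 : Module.End K V) G) β) : G.HasEigenvalue β := by
  by_contra h0
  have h1 := inj_of_not_eig h0
  have h2 : Function.Injective ((G - β • (1 : Module.End K U)).lTensor V) :=
    Module.Flat.lTensor_preserves_injective_linearMap _ h1
  obtain ⟨v, hv⟩ := h.exists_hasEigenvector
  apply hv.2
  apply h2
  rw [map_zero, LinearMap.lTensor_sub, LinearMap.lTensor_smul, LinearMap.sub_apply,
    LinearMap.smul_apply]
  have h3 : (LinearMap.lTensor V G) v = β • v := hv.apply_eq_smul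
  have h4 : (LinearMap.lTensor V (1 : Module.End K U)) v = v := by
    have : (LinearMap.lTensor V (1 : Module.End K U)) = LinearMap.id := LinearMap.lTensor_id V U
    rw [this]
    rfl
  rw [h3, h4, sub_self]

/-- two commuting operators have a common eigenvector in each eigenspace of a third one -/
theorem common {M : Type} [AddCommGroup M] [Module K M] [FiniteDimensional K M]
    {A B C : Module.End K M} (hAB : Commute A B) (hAC : Commute A C) (hBC : Commute B C) {μ : K}
    (h : C.HasEigenvalue μ) : ∃ (α β : K) (v : M), v ≠ 0 ∧ A v = α • v ∧ B v = β • v ∧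
      C v = μ • v := by
  have hA : ∀ v ∈ C.eigenspace μ, A v ∈ C.eigenspace μ := by
    intro v hv
    rw [Module.End.mem_eigenspace_iff] at hv ⊢
    rw [← Module.End.mul_apply, ← hAC.eq, Module.End.mul_apply, hv, map_smul]
  have hnt : Nontrivial (C.eigenspace μ) := (Submodule.nontrivial_iff_ne_bot).2 h
  obtain ⟨α, hα⟩ := Module.End.exists_eigenvalue (A.restrict hA)
  obtain ⟨v, hv⟩ := hα.exists_hasEigenvector
  have hvA : A v.1 = α • v.1 := congrArg Subtype.val hv.apply_eq_smul
  have hv0 : v.1 ≠ 0 := fun h0 => hv.2 (Subtype.ext h0)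
  have hB : ∀ v ∈ (C.eigenspace μ ⊓ A.eigenspace α : Submodule K M),
      B v ∈ (C.eigenspace μ ⊓ A.eigenspace α : Submodule K M) := by
    rintro v ⟨h1, h2⟩
    have h1' := Module.End.mem_eigenspace_iff.1 h1
    have h2' := Module.End.mem_eigenspace_iff.1 h2
    refine ⟨Module.End.mem_eigenspace_iff.2 ?_, Module.End.mem_eigenspace_iff.2 ?_⟩
    · rw [← Module.End.mul_apply, ← hBC.eq, Module.End.mul_apply, h1', map_smul]
    · rw [← Module.End.mul_apply, hAB.eq, Module.End.mul_apply, h2', map_smul]
  have hnt2 : Nontrivial (C.eigenspace μ ⊓ A.eigenspace α : Submodule K M) := by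
    refine ⟨⟨⟨v.1, v.2, Module.End.mem_eigenspace_iff.2 hvA⟩, 0, fun h0 => hv0 ?_⟩⟩
    exact congrArg Subtype.val h0
  obtain ⟨β, hβ⟩ := Module.End.exists_eigenvalue (B.restrict hB)
  obtain ⟨w, hw⟩ := hβ.exists_hasEigenvector
  refine ⟨α, β, w.1, fun h0 => hw.2 (Subtype.ext h0), ?_, congrArg Subtype.val hw.apply_eq_smul, ?_⟩
  · exact Module.End.mem_eigenspace_iff.1 w.2.2
  · exact Module.End.mem_eigenspace_iff.1 w.2.1

/-- the eigenvalues of a tensor product -/
theorem eig_tensor {F : Module.End K V} {G : Module.End K U} {m : ℕ} {μ : K} {u : V ⊗[K] U}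
    (hu0 : u ≠ 0) (hu : ((TensorProduct.map F G) ^ m) u = μ • u) :
    ∃ α β : K, F.HasEigenvalue α ∧ G.HasEigenvalue β ∧ (α * β) ^ m = μ := by
  set A : Module.End K (V ⊗[K] U) := TensorProduct.map F 1 with hA
  set B : Module.End K (V ⊗[K] U) := TensorProduct.map 1 G with hB
  have hAB : A * B = TensorProduct.map F G := by
    rw [hA, hB, ← TensorProduct.map_mul, mul_one, one_mul]
  have hBA : B * A = TensorProduct.map F G := by
    rw [hA, hB, ← TensorProduct.map_mul, mul_one, one_mul]
  have hc : Commute A B := by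
    show A * B = B * A
    rw [hAB, hBA]
  have hAC : Commute A ((A * B) ^ m) := (Commute.mul_right (Commute.refl A) hc).pow_right m
  have hBC : Commute B ((A * B) ^ m) := (Commute.mul_right hc.symm (Commute.refl B)).pow_right m
  have h1 : ((A * B) ^ m).HasEigenvalue μ := by
    refine Module.End.hasEigenvalue_of_hasEigenvector (x := u) ?_
    refine Module.End.hasEigenvector_iff.2 ⟨Module.End.mem_eigenspace_iff.2 ?_, hu0⟩
    rw [hAB]
    exact hu
  obtain ⟨α, β, v, hv0, hvA, hvB, hvC⟩ := common hc hAC hBC h1
  refine ⟨α, β, eig_rTensor (U := U) ?_, eig_lTensor (V := V) ?_, ?_⟩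
  · exact Module.End.hasEigenvalue_of_hasEigenvector (x := v)
      (Module.End.hasEigenvector_iff.2 ⟨Module.End.mem_eigenspace_iff.2 hvA, hv0⟩)
  · exact Module.End.hasEigenvalue_of_hasEigenvector (x := v)
      (Module.End.hasEigenvector_iff.2 ⟨Module.End.mem_eigenspace_iff.2 hvB, hv0⟩)
  · have h2 : (A * B) v = (α * β) • v := by
      rw [Module.End.mul_apply, hvB, map_smul, hvA, smul_smul, mul_comm]
    have h3 : ∀ m : ℕ, ((A * B) ^ m) v = (α * β) ^ m • v := by
      intro m
      induction m with
      | zero => rw [pow_zero, pow_zero, one_smul]; rfl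
      | succ m ih => rw [pow_succ', Module.End.mul_apply, ih, map_smul, h2, smul_smul, pow_succ]
    have h4 := h3 m
    rw [hvC] at h4
    have h5 : (μ - (α * β) ^ m) • v = 0 := by rw [sub_smul, h4, sub_self]
    rcases smul_eq_zero.1 h5 with h6 | h6
    · exact (sub_eq_zero.1 h6).symm
    · exact absurd h6 hv0

end tens

section quot

variable {A : Type} [AddCommGroup A] [Module K A] [FiniteDimensional K A]

omit [IsAlgClosed K] in
/-- the eigenvalues on a quotient -/
theorem eig_quot {F : Module.End K A} {P T : Submodule K A} (hP : ∀ x ∈ P, F x ∈ P)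
    (hT : ∀ x ∈ T, F x ∈ T) (hPT : P ⊔ T = ⊤) {α : K}
    (h : Module.End.HasEigenvalue (P.mapQ P F hP) α) :
    Module.End.HasEigenvalue (F.restrict hT) α := by
  by_contra h0
  have h1 := inj_of_not_eig h0
  have h2 := LinearMap.injective_iff_surjective.1 h1
  have h3 : Function.Surjective (P.mapQ P F hP - α • (1 : Module.End K (A ⧸ P))) := by
    intro y
    obtain ⟨a, rfl⟩ := P.mkQ_surjective y
    have ha : a ∈ P ⊔ T := by rw [hPT]; trivial
    obtain ⟨p, hp, t, ht, rfl⟩ := Submodule.mem_sup.1 ha
    obtain ⟨s, hs⟩ := h2 ⟨t, ht⟩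
    refine ⟨P.mkQ s.1, ?_⟩
    have h4 := congrArg Subtype.val hs
    have h5 : F s.1 - α • s.1 = t := h4
    rw [map_add, (Submodule.Quotient.mk_eq_zero P).2 hp |> fun h => (show P.mkQ p = 0 from h),
      zero_add, ← h5, map_sub, map_smul, LinearMap.sub_apply, LinearMap.smul_apply,
      Module.End.one_apply]
    rfl
  have h4 := LinearMap.injective_iff_surjective.2 h3
  apply h
  show Module.End.eigenspace (P.mapQ P F hP) α = ⊥
  rw [Module.End.eigenspace_def, LinearMap.ker_eq_bot]
  exact h4

variable {B : Type} [AddCommGroup B] [Module K B] [FiniteDimensional K B]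

/-- vectors without components in the complement -/
theorem mem_of_res {F : Module.End K A} {P T : Submodule K A} (hP : ∀ x ∈ P, F x ∈ P)
    (hT : ∀ x ∈ T, F x ∈ T) (hPT : P ⊔ T = ⊤) {G : Module.End K B} {m : ℕ} {μ : K}
    (hres : ∀ α β, Module.End.HasEigenvalue (F.restrict hT) α → G.HasEigenvalue β →
      (α * β) ^ m ≠ μ)
    {u : A ⊗[K] B} (hu : ((TensorProduct.map F G) ^ m) u = μ • u) :
    u ∈ LinearMap.range (P.subtype.rTensor B) := by
  set F' := P.mapQ P F hP with hF'
  have h1 : ∀ (m : ℕ) (x : A ⊗[K] B), (P.mkQ.rTensor B) (((TensorProduct.map F G) ^ m) x) =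
      ((TensorProduct.map F' G) ^ m) ((P.mkQ.rTensor B) x) := by
    intro m
    induction m with
    | zero => intro x; rfl
    | succ m ih =>
      intro x
      rw [pow_succ, Module.End.mul_apply, ih, pow_succ, Module.End.mul_apply]
      congr 1
      induction x using TensorProduct.induction_on with
      | zero => simp only [map_zero]
      | tmul a b =>
        rw [TensorProduct.map_tmul, LinearMap.rTensor_tmul, LinearMap.rTensor_tmul,
          TensorProduct.map_tmul]
        rfl
      | add x y hx hy => rw [map_add, map_add, map_add, map_add, hx, hy]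
  have h2 : (P.mkQ.rTensor B) u = 0 := by
    by_contra h0
    have h3 := congrArg (P.mkQ.rTensor B) hu
    rw [h1, map_smul] at h3
    obtain ⟨α, β, hα, hβ, hαβ⟩ := eig_tensor h0 h3
    exact hres α β (eig_quot hP hT hPT hα) hβ hαβ
  have h3 : Function.Exact P.subtype P.mkQ := LinearMap.exact_subtype_mkQ P
  have h4 := rTensor_exact B h3 P.mkQ_surjective
  exact (h4 u).1 h2

end quot

end Pool.Agent.N876.FL
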