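import Pool.Agent.N876.FL.Geo2
import Pool.Agent.TH132.A.Hodge

/-!
# Products of varieties without resonances: the standard conjectures
-/

set_option autoImplicit false

open CategoryTheory AlgebraicGeometry
open scoped TensorProduct

universe u

namespace Pool.Agent.N876.FL

open Pool.Agent.H914 Pool.Agent.H914.VarClass Pool.Agent.H914.VarClass.Obj
  Pool.Agent.H914.WeilCohomology Pool.Agent.H281R3.HT Pool.Agent.W552 Pool.Agent.TH125.Gal
  Pool.Agent.TH132.A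

variable {k : Type u} [Field k] {𝒱 : VarClass k} {ops : CycleOps 𝒱}
  {W : WeilCohomology.{u, 0} ops} {Γ : Type} [Group Γ] {χ : Γ →* W.Kˣ}

/-- The product `X i₁ × (X i₂ × (⋯ × P))` with the sum of the pull-backs of the divisors. -/
noncomputable def tow {ι : Type} (X : ι → GVar W Γ) (D : ∀ i, (X i).X.Cycles)
    (P : Polarized 𝒱) : List ι → Polarized 𝒱
  | [] => P
  | i :: L => (⟨(X i).X, D i⟩ : Polarized 𝒱).prod ops (tow X D P L)

/-- no resonances for the families of factors -/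
def NoResF {K ι : Type} [Field K] (q : K) (S : ι → Set K) (SZ : Set K) : Prop :=
  ∀ (I : Finset ι), I.Nonempty → ∀ α : ι → K, (∀ i ∈ I, α i ∈ S i) → ∀ β ∈ SZ,
    ∀ e m w : ℕ, 0 < m → ((∏ i ∈ I, α i) * q ^ e * β) ^ m ≠ q ^ (m * w)

/-- the hypotheses -/
structure Sys (χ : Γ →* W.Kˣ) (G : Set (GVar W Γ)) {ι : Type} (X : ι → GVar W Γ) (Z : GVar W Γ)
    (σ : Γ) (S : ι → Set W.K) : Prop where
  gal : GaloisClass χ G
  mem : ∀ i, X i ∈ G
  memZ : Z ∈ G
  cv : ∀ i, Cv (X i) σ (S i)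
  res : NoResF ((χ σ : W.Kˣ) : W.K) S {β | (op Z σ).HasEigenvalue β}
  res1 : NoResF ((χ σ : W.Kˣ) : W.K) S {1}
  one : ∀ i, (1 : W.H (X i).X) ≠ 0

variable {G : Set (GVar W Γ)} {ι : Type} {X : ι → GVar W Γ} {D : ∀ i, (X i).X.Cycles}
  {Z : GVar W Γ} {S : ι → Set W.K} {σ : Γ}

/-- the shape of the eigenvalues -/
def Shape (S : ι → Set W.K) (SZ : Set W.K) (q : W.K) (L : List ι) (γ : W.K) : Prop :=
  ∃ (I : Finset ι) (α : ι → W.K) (β : W.K) (e m : ℕ), (∀ i ∈ I, i ∈ L) ∧ (∀ i ∈ I, α i ∈ S i) ∧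
    β ∈ SZ ∧ 0 < m ∧ γ ^ m = ((∏ i ∈ I, α i) * q ^ e * β) ^ m

variable [IsAlgClosed W.K]

/-- the action on the products and its eigenvalues -/
theorem Sys.exists_tow (h : Sys χ G X Z σ S) (E : Z.X.Cycles) (L : List ι) (hL : L.Nodup) :
    ∃ υ : Γ →* (W.H (tow X D ⟨Z.X, E⟩ L).X ≃ₐ[W.K] W.H (tow X D ⟨Z.X, E⟩ L).X),
      (⟨(tow X D ⟨Z.X, E⟩ L).X, υ⟩ : GVar W Γ) ∈ G ∧
      ∀ γ, (op (⟨(tow X D ⟨Z.X, E⟩ L).X, υ⟩ : GVar W Γ) σ).HasEigenvalue γ →
        Shape S {β | (op Z σ).HasEigenvalue β} ((χ σ : W.Kˣ) : W.K) L γ := by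
  classical
  induction L with
  | nil =>
    refine ⟨Z.act, h.memZ, fun γ hγ => ⟨∅, fun _ => 0, γ, 0, 1, by simp, by simp, hγ, one_pos, ?_⟩⟩
    rw [Finset.prod_empty, pow_zero, one_mul, one_mul]
  | cons i L ih =>
    rw [List.nodup_cons] at hL
    obtain ⟨τ, hτ, hτ'⟩ := ih hL.2
    obtain ⟨C, hC, hP⟩ := h.gal.prod _ (h.mem i) _ hτ
    cases hP with
    | mk υ h1 h2 =>
    refine ⟨υ, hC, fun γ hγ => ?_⟩
    obtain ⟨α, β', hα, hβ', rfl⟩ := eig_prod (A := X i)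
      (B := ⟨(tow X D ⟨Z.X, E⟩ L).X, τ⟩) (IsProdVar.mk υ h1 h2) hγ
    obtain ⟨I, α', β, e, m, hI, hα', hβ, hm, hγ'⟩ := hτ' β' hβ'
    have hiI : i ∉ I := fun hi => hL.1 (hI i hi)
    rcases eig_factor (h.gal.galois _ (h.mem i)) (h.cv i) hα with hαS | ⟨m', j, hm', hαm⟩
    · refine ⟨insert i I, Function.update α' i α, β, e, m, ?_, ?_, hβ, hm, ?_⟩
      · intro i' hi'
        rcases Finset.mem_insert.1 hi' with rfl | hi'
        · exact List.mem_cons_self
        · exact List.mem_cons_of_mem _ (hI i' hi')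
      · intro i' hi'
        rcases Finset.mem_insert.1 hi' with rfl | hi'
        · rw [Function.update_self]; exact hαS
        · rw [Function.update_of_ne (ne_of_mem_of_not_mem hi' hiI)]
          exact hα' i' hi'
      · rw [Finset.prod_insert hiI, Function.update_self, mul_pow, hγ', ← mul_pow]
        congr 1
        rw [Finset.prod_congr rfl fun i' hi' =>
          Function.update_of_ne (ne_of_mem_of_not_mem hi' hiI) α α']
        ring
    · refine ⟨I, α', β, e + j, m * m', fun i' hi' => List.mem_cons_of_mem _ (hI i' hi'), hα', hβ,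
        Nat.mul_pos hm hm', ?_⟩
      have h3 : α ^ (m * m') = (((χ σ : W.Kˣ) : W.K) ^ j) ^ (m * m') := by
        rw [mul_comm m m', pow_mul, hαm, ← pow_mul, ← pow_mul]
        congr 1
        ring
      rw [mul_pow, h3, pow_mul β', hγ', ← pow_mul ((∏ i ∈ I, α' i) * _ * β), ← mul_pow]
      congr 1
      rw [pow_add]
      ring

/-- no resonances for one step -/
theorem Sys.step (h : Sys χ G X Z σ S) {i : ι} {L : List ι} (hi : i ∉ L) {B : GVar W Γ}
    (hB : ∀ γ, (op B σ).HasEigenvalue γ →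
      Shape S {β | (op Z σ).HasEigenvalue β} ((χ σ : W.Kˣ) : W.K) L γ) :
    Res ((χ σ : W.Kˣ) : W.K) (S i) {γ | (op B σ).HasEigenvalue γ} := by
  classical
  intro α hα γ hγ m w hm heq
  obtain ⟨I, α', β, e, m', hI, hα', hβ, hm', hγ'⟩ := hB γ hγ
  have hiI : i ∉ I := fun h0 => hi (hI i h0)
  refine h.res (insert i I) (Finset.insert_nonempty i I) (Function.update α' i α) ?_ β hβ e
    (m * m') w (Nat.mul_pos hm hm') ?_
  · intro i' hi'
    rcases Finset.mem_insert.1 hi' with rfl | hi'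
    · rw [Function.update_self]; exact hα
    · rw [Function.update_of_ne (ne_of_mem_of_not_mem hi' hiI)]
      exact hα' i' hi'
  · rw [Finset.prod_insert hiI, Function.update_self,
      Finset.prod_congr rfl fun i' hi' =>
        Function.update_of_ne (ne_of_mem_of_not_mem hi' hiI) α α']
    have h1 : α * (∏ i ∈ I, α' i) * ((χ σ : W.Kˣ) : W.K) ^ e * β =
        α * ((∏ i ∈ I, α' i) * ((χ σ : W.Kˣ) : W.K) ^ e * β) := by ring
    rw [h1, mul_pow, mul_comm m m', pow_mul ((∏ i ∈ I, α' i) * _ * β), ← hγ', ← pow_mul γ,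
      ← mul_pow, mul_comm m' m, pow_mul, heq, ← pow_mul]
    congr 1
    ring

theorem Sys.homEqNum (h : Sys χ G X Z σ S) (i : ι) : HomEqNum W (X i).X := by
  classical
  refine homEqNum_of_res (h.gal.galois _ (h.mem i)) (h.cv i) fun α hα m w hm heq => ?_
  refine h.res1 {i} (Finset.singleton_nonempty i) (fun _ => α) ?_ 1 rfl 0 m w hm ?_
  · intro i' hi'
    rw [Finset.mem_singleton.1 hi']
    exact hα
  · rw [Finset.prod_singleton, pow_zero, mul_one, mul_one, heq]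

/-- the algebraic classes on one step of the product -/
theorem Sys.tens (h : Sys χ G X Z σ S) (D : ∀ i, (X i).X.Cycles) (E : Z.X.Cycles) {i : ι}
    {L : List ι} (hi : i ∉ L) (hL : L.Nodup) :
    ∀ z, AS W ((X i).X.prod (tow X D ⟨Z.X, E⟩ L).X) z →
      z ∈ Pool.Agent.TH132.A.tens W (X i).X (tow X D ⟨Z.X, E⟩ L).X := by
  intro z hz
  obtain ⟨τ, hτ, hτ'⟩ := h.exists_tow (D := D) E L hL
  obtain ⟨C, hC, hP⟩ := h.gal.prod _ (h.mem i) _ hτ
  refine mem_tens (h.homEqNum i) hz ?_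
  exact span_of_res (h.gal.galois _ (h.mem i)) (h.gal.galois _ hC) hP (h.cv i)
    (SB := {γ | (op (⟨(tow X D ⟨Z.X, E⟩ L).X, τ⟩ : GVar W Γ) σ).HasEigenvalue γ})
    (fun γ hγ => hγ) (h.step hi hτ') z hz

theorem Sys.clSplit (h : Sys χ G X Z σ S) (D : ∀ i, (X i).X.Cycles) (E : Z.X.Cycles) {i : ι}
    {L : List ι} (hi : i ∉ L) (hL : L.Nodup) :
    ClSplit W (X i).X (tow X D ⟨Z.X, E⟩ L).X :=
  clSplit_of_tens (h.tens D E hi hL)

/-- **The conjecture D.** -/
theorem Sys.homEqNum_tow (h : Sys χ G X Z σ S) (D : ∀ i, (X i).X.Cycles) (E : Z.X.Cycles)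
    {L : List ι} (hL : L.Nodup) : HomEqNum W (tow X D ⟨Z.X, E⟩ L).X ↔ HomEqNum W Z.X := by
  induction L with
  | nil => exact Iff.rfl
  | cons i L ih =>
    rw [List.nodup_cons] at hL
    rw [← ih hL.2]
    exact homEqNum_prod_iff (h.tens D E hL.1 hL.2) (h.homEqNum i) (h.one i)

theorem tow_hard (hD : ∀ i, (X i).X.IsCyc 1 (D i))
    (hHD : ∀ i, HardLefschetz W (X i).X (D i)) {E : Z.X.Cycles} (hE : Z.X.IsCyc 1 E)
    (hHE : HardLefschetz W Z.X E) (L : List ι) :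
    (tow X D ⟨Z.X, E⟩ L).X.IsCyc 1 (tow X D ⟨Z.X, E⟩ L).D ∧
      HardLefschetz W (tow X D ⟨Z.X, E⟩ L).X (tow X D ⟨Z.X, E⟩ L).D := by
  induction L with
  | nil => exact ⟨hE, hHE⟩
  | cons i L ih =>
    exact ⟨SmVar.IsCyc.add (ops.pull_mem _ (hD i)) (ops.pull_mem _ ih.1),
      hardLefschetz_prod (hD i) ih.1 (hHD i) ih.2⟩

/-- one step -/
theorem lefA_step {A B : 𝒱.Obj} (hS : ClSplit W A B) (hDA : HomEqNum W A) (h1 : (1 : W.H A) ≠ 0)
    {D : A.Cycles} (hD : A.IsCyc 1 D) (hHD : HardLefschetz W A D) {E : B.Cycles}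
    (hE : B.IsCyc 1 E) (hHE : HardLefschetz W B E) :
    LefschetzA W (A.prod B) (ops.pull (fst A B) D + ops.pull (snd A B) E) ↔ LefschetzA W B E := by
  refine Pool.Agent.TH132.A.lefschetzA_prod_iff hS hD hE
    (SmVar.IsCyc.add (ops.pull_mem _ hD) (ops.pull_mem _ hE)) ?_ hHD hHE
    (lefschetzA_of_D hD hHD hDA) h1
  rw [map_add, W.cl_pull, W.cl_pull]

/-- one step, all divisors -/
theorem lefAll_step {A B : 𝒱.Obj} (hS : ClSplit W A B) (hDA : HomEqNum W A)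
    (h1 : (1 : W.H A) ≠ 0) {D : A.Cycles} (hD : A.IsCyc 1 D) (hHD : HardLefschetz W A D) :
    LefAll W (A.prod B) ↔ LefAll W B := by
  by_cases hB1 : (1 : W.H B) = 0
  · refine iff_of_true (fun _ _ _ => lefschetzA_of_zero ?_ _)
      (fun _ _ _ => lefschetzA_of_zero hB1 _)
    have h1 : (1 : W.H (A.prod B)) = 0 := by
      rw [← map_one (W.map (snd _ B)), hB1, map_zero]
    exact h1
  constructor
  · intro h E hE hHL
    exact (lefA_step hS hDA h1 hD hHD hE hHL).1 (h _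
      (SmVar.IsCyc.add (ops.pull_mem _ hD) (ops.pull_mem _ hE))
      (hardLefschetz_prod hD hE hHD hHL))
  · intro h C hC hHL
    obtain ⟨D', E', hD', hE', hDE⟩ := Pool.Agent.TH132.A.div_split hS hC
    have h2 := Pool.Agent.TH132.A.hl_left hD' hE' hDE hHL hB1
    have h3 := Pool.Agent.TH132.A.hl_right hE' hD' hDE hHL h1
    exact (Pool.Agent.TH132.A.lefschetzA_prod_iff hS hD' hE' hC hDE h2 h3
      (lefschetzA_of_D hD' h2 hDA) h1).2 (h E' hE' h3)

/-- **The conjecture A.** -/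
theorem Sys.lefschetzA_tow (h : Sys χ G X Z σ S) (hD : ∀ i, (X i).X.IsCyc 1 (D i))
    (hHD : ∀ i, HardLefschetz W (X i).X (D i)) {E : Z.X.Cycles} (hE : Z.X.IsCyc 1 E)
    (hHE : HardLefschetz W Z.X E) {L : List ι} (hL : L.Nodup) :
    LefschetzA W (tow X D ⟨Z.X, E⟩ L).X (tow X D ⟨Z.X, E⟩ L).D ↔ LefschetzA W Z.X E := by
  induction L with
  | nil => exact Iff.rfl
  | cons i L ih =>
    rw [List.nodup_cons] at hL
    rw [← ih hL.2]
    obtain ⟨h1, h2⟩ := tow_hard hD hHD hE hHE L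
    exact lefA_step (h.clSplit D E hL.1 hL.2) (h.homEqNum i) (h.one i) (hD i) (hHD i) h1 h2

/-- **The conjecture A, all divisors.** -/
theorem Sys.lefAll_tow (h : Sys χ G X Z σ S) (hD : ∀ i, (X i).X.IsCyc 1 (D i))
    (hHD : ∀ i, HardLefschetz W (X i).X (D i)) (E : Z.X.Cycles) {L : List ι} (hL : L.Nodup) :
    LefAll W (tow X D ⟨Z.X, E⟩ L).X ↔ LefAll W Z.X := by
  induction L with
  | nil => exact Iff.rfl
  | cons i L ih =>
    rw [List.nodup_cons] at hL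
    rw [← ih hL.2]
    exact lefAll_step (h.clSplit D E hL.1 hL.2) (h.homEqNum i) (h.one i) (hD i) (hHD i)

/-- **The conjecture of Hodge type.** -/
theorem Sys.hodge_tow (h : Sys χ G X Z σ S) (hD : ∀ i, (X i).X.IsCyc 1 (D i))
    (hHD : ∀ i, HardLefschetz W (X i).X (D i)) (hHod : ∀ i, HodgeType W (X i).X (D i))
    {E : Z.X.Cycles} (hE : Z.X.IsCyc 1 E)
    (hHE : HardLefschetz W Z.X E) {L : List ι} (hL : L.Nodup) :
    HodgeType W (tow X D ⟨Z.X, E⟩ L).X (tow X D ⟨Z.X, E⟩ L).D ↔ HodgeType W Z.X E := by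
  induction L with
  | nil => exact Iff.rfl
  | cons i L ih =>
    rw [List.nodup_cons] at hL
    rw [← ih hL.2]
    obtain ⟨h1, h2⟩ := tow_hard hD hHD hE hHE L
    obtain ⟨f₁, F, hf⟩ := exists_lw (hD i) (hHD i)
    obtain ⟨g₁, F', hg⟩ := exists_lw h1 h2
    have hst : Stable W (X i).X f₁ := stable_of_lefschetzA F.hD F.sl2
      (lefschetzA_of_D F.hD (hHD i) (h.homEqNum i))
    exact ⟨fun h3 => hodge_of_prod F F' (hHod i) (h.one i) h3,
      fun h3 => hodge_prod_of (h.tens D E hL.1 hL.2) F hf (hHD i) hst (hHod i) F' hg h3⟩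

end Pool.Agent.N876.FL
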