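import Pool.Agent.N876.FL.Base
import Pool.Agent.N876.FL.Geo3

/-!
# No resonances, over any coefficient field
-/

set_option autoImplicit false

namespace Pool.Agent.N876.FL

open Finset Polynomial Pool.Agent.N876.TC Pool.Agent.N876.UV Pool.Agent.W528.HA Pool.Agent.W528.HB

variable {c : ℕ} [Fact c.Prime]

/-- the conditions on the eigenvalues `β` of the other factor -/
def OtherOK {K : Type} [Field K] (σ₀ : K →+* ℂ) (q N lam : ℕ) (SZ : Set K) : Prop :=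
  (∀ β ∈ SZ, IsAlgebraic ℚ (σ₀ β) ∧ ∃ j : ℕ, ‖σ₀ β‖ ^ 2 = (q : ℝ) ^ j) ∧
    ((lam = 0 ∧ Irreducible (cyclotomic N (IntermediateField.adjoin ℚ (σ₀ '' SZ)))) ∨
      ∀ β ∈ SZ, IsIntegral ℤ ((q : ℂ) ^ lam * σ₀ β / starRingEnd ℂ (σ₀ β)))

theorem otherOK_one {K : Type} [Field K] (σ₀ : K →+* ℂ) (q N lam : ℕ) :
    OtherOK σ₀ q N lam {1} := by
  refine ⟨?_, Or.inr ?_⟩
  · rintro β rfl
    refine ⟨?_, 0, ?_⟩
    · rw [map_one]; exact isAlgebraic_one
    · rw [map_one, norm_one, one_pow, pow_zero]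
  · rintro β rfl
    rw [map_one, map_one, mul_one, div_one]
    exact (isIntegral_natCast (R := ℤ) (a := q) (B := ℂ)).pow lam

section

variable {ι : Type} {N lam : ℕ} (hN : 0 < N) {d n s : ι → ℕ}
    (hd : ∀ i, 2 ≤ d i) (hdN : ∀ i, d i ∣ N) (κ : Type) [Field κ] [Fintype κ] [CharP κ c] {f : ℕ}
    (hf : Fintype.card κ = c ^ f) {z : ι → κ} (hz : ∀ i, IsPrimitiveRoot (z i) (d i))
    (l : ∀ i, Fin (s i) → Fin (n i + 1) → κ) (a : ∀ i, Fin (s i) → ℕ)
    (ha : ∀ i k, (a i k).Coprime (d i))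
    {K : Type} [Field K] [CharZero K] (σ₀ : K →+* ℂ)
    {T : ι → Type} [∀ i, AddCommGroup (T i)] [∀ i, Module K (T i)]
    [∀ i, FiniteDimensional K (T i)] {Φ g : ∀ i, Module.End K (T i)}
    (h : ∀ i, IsCov (d i) (l i) (a i) (z i) (Φ i) (g i))

include hN hd hdN hf hz ha h

theorem nores_cov (hsmall : ∀ I : Finset ι, I.Nonempty → SmallI c f N lam d n s a I)
    (hpure : ∀ i α, (Φ i).HasEigenvalue α → ‖σ₀ α‖ ^ 2 = (Fintype.card κ : ℝ) ^ n i)
    {SZ : Set K} (hZ : OtherOK σ₀ (Fintype.card κ) N lam SZ) :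
    NoResF (Fintype.card κ : K) (fun i => {α | (Φ i).HasEigenvalue α}) SZ := by
  intro I hI α hα β hβ e m w hm heq
  have h1 : ∀ i, ∃ (T' : Type) (_ : AddCommGroup T') (_ : Module ℂ T')
      (_ : FiniteDimensional ℂ T') (Φ' τ' : Module.End ℂ T'), IsCov (d i) (l i) (a i) (z i) Φ' τ' ∧
        ∀ α, (Φ i).HasEigenvalue α → Φ'.HasEigenvalue (σ₀ α) :=
    fun i => exists_bc (by have := hd i; omega) (h i) σ₀
  choose T' i1 i2 i3 Φ' τ' h2 h3 using h1
  have heq' : ((∏ i ∈ I, σ₀ (α i)) * (Fintype.card κ : ℂ) ^ e * σ₀ β) ^ m =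
      (Fintype.card κ : ℂ) ^ (m * w) := by
    have h4 := congrArg σ₀ heq
    simpa only [map_mul, map_pow, map_prod, map_natCast] using h4
  obtain ⟨hβ1, j, hβj⟩ := hZ.1 β hβ
  rcases hZ.2 with ⟨rfl, hirr⟩ | hlev
  · have hs : Small c f N d n s a := by
      intro I hI j hj
      obtain ⟨u, hu, hlt⟩ := hsmall I hI j hj
      exact ⟨u, hu, by omega⟩
    exact core_disj hN hd hdN κ hf hz l a ha h2 hs
      (F := IntermediateField.adjoin ℚ (σ₀ '' SZ))
      (IntermediateField.adjoin_le_iff.2 (by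
        rintro _ ⟨β', hβ', rfl⟩
        exact mem_algebraicClosure_iff.mpr (hZ.1 β' hβ').1)) hirr hI
      (α := fun i => σ₀ (α i)) (fun i hi => h3 i _ (hα i hi))
      (fun i hi => hpure i _ (hα i hi))
      (IntermediateField.subset_adjoin _ _ ⟨β, hβ, rfl⟩) hβj hm heq'
  · exact core_level hN hd hdN κ hf hz l a ha h2 (hsmall I hI)
      (α := fun i => σ₀ (α i)) (fun i hi => h3 i _ (hα i hi))
      (fun i hi => hpure i _ (hα i hi)) hβ1 hβj (hlev β hβ) hm heq'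

end

end Pool.Agent.N876.FL
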