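import Pool.Agent.N876.FL.Core

/-!
# Base change of the trace formula
-/

set_option autoImplicit false

namespace Pool.Agent.N876.FL

open Finset Polynomial TensorProduct Pool.Agent.N876.TC

theorem exists_bc {κ : Type} [Field κ] {N : ℕ} (hN : 0 < N) {s n : ℕ}
    {l : Fin s → Fin (n + 1) → κ} {a : Fin s → ℕ} {z : κ} {E T : Type} [Field E] [CharZero E]
    [AddCommGroup T] [Module E T] [FiniteDimensional E T] {Φ τ : Module.End E T}
    (h : IsCov N l a z Φ τ) (σ : E →+* ℂ) :
    ∃ (T' : Type) (_ : AddCommGroup T') (_ : Module ℂ T') (_ : FiniteDimensional ℂ T')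
      (Φ' τ' : Module.End ℂ T'), IsCov N l a z Φ' τ' ∧
        ∀ α, Φ.HasEigenvalue α → Φ'.HasEigenvalue (σ α) := by
  let _ : Algebra E ℂ := σ.toAlgebra
  let B : Module.End E T →ₐ[E] Module.End ℂ (ℂ ⊗[E] T) := Module.End.baseChangeHom E ℂ T
  have hB : ∀ f : Module.End E T, B f = f.baseChange ℂ := fun f => rfl
  refine ⟨ℂ ⊗[E] T, inferInstance, inferInstance, inferInstance, B Φ, B τ, ⟨?_, ?_, ?_, ?_⟩, ?_⟩
  · exact h.comm.map B
  · rw [← map_pow, h.order, map_one]
  · have hν : ∑ i ∈ range N, τ ^ i = 0 := by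
      refine LinearMap.ext fun t => ?_
      refine h.inv _ ?_
      rw [← Module.End.mul_apply, mul_sum]
      have h1 : ∑ i ∈ range N, τ * τ ^ i = ∑ i ∈ range N, τ ^ i := by
        have h2 := sum_range_succ' (fun i => τ ^ i) N
        have h3 := sum_range_succ (fun i => τ ^ i) N
        rw [h3, h.order, pow_zero] at h2
        have h4 := add_right_cancel h2
        rw [h4]
        exact sum_congr rfl fun i _ => (pow_succ' τ i).symm
      rw [h1]
    intro w hw
    have h1 : ∀ i : ℕ, ((B τ) ^ i) w = w := by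
      intro i
      induction i with
      | zero => rw [pow_zero]; rfl
      | succ i ih => rw [pow_succ', Module.End.mul_apply, ih, hw]
    have h2 : (∑ i ∈ range N, (B τ) ^ i) w = (N : ℂ) • w := by
      rw [LinearMap.sum_apply, sum_congr rfl fun i _ => h1 i, sum_const, card_range,
        Nat.cast_smul_eq_nsmul]
    have h3 : ∑ i ∈ range N, (B τ) ^ i = B (∑ i ∈ range N, τ ^ i) := by
      rw [map_sum]
      exact sum_congr rfl fun i _ => (map_pow B τ i).symm
    rw [h3, hν, map_zero, LinearMap.zero_apply] at h2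
    exact (smul_eq_zero.1 h2.symm).resolve_left (by exact_mod_cast hN.ne')
  · intro L _ _ _ i
    have h2 : LinearMap.trace ℂ (ℂ ⊗[E] T) ((B Φ) ^ Module.finrank κ L * (B τ) ^ i) =
        σ (LinearMap.trace E T (Φ ^ Module.finrank κ L * τ ^ i)) := by
      rw [← map_pow, ← map_pow, ← map_mul, hB, LinearMap.trace_baseChange]
      rfl
    have h0 := h.lef L i
    rw [h2]
    generalize LinearMap.trace E T (Φ ^ Module.finrank κ L * τ ^ i) = t at h0
    have h1 := congrArg σ h0
    simpa only [map_mul, map_sub, map_pow, map_neg, map_one, map_natCast] using h1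
  · intro α hα
    obtain ⟨t, ht⟩ := hα.exists_hasEigenvector
    refine Module.End.hasEigenvalue_of_hasEigenvector (x := (1 : ℂ) ⊗ₜ[E] t) ?_
    refine Module.End.hasEigenvector_iff.2 ⟨Module.End.mem_eigenspace_iff.2 ?_, ?_⟩
    · rw [hB, LinearMap.baseChange_tmul, ht.apply_eq_smul, ← TensorProduct.smul_tmul,
        TensorProduct.smul_tmul', Algebra.smul_def, smul_eq_mul]
      rfl
    · intro h0
      have h1 : Function.Injective (TensorProduct.mk E ℂ T 1) :=
        Module.Flat.tensorProduct_mk_injective (R := E) (S := ℂ) T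
      apply ht.2
      apply h1
      rw [map_zero]
      exact h0

end Pool.Agent.N876.FL
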