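import Pool.Agent.N876.FL.Lev

/-!
# No resonances, for given eigenvalues
-/

set_option autoImplicit false

namespace Pool.Agent.N876.FL

open Finset Polynomial Pool.Agent.N876.TC Pool.Agent.N876.UV Pool.Agent.W528.HA Pool.Agent.W528.HB

variable {c : ℕ} [Fact c.Prime]

/-- the weights -/
theorem weights {ι : Type} {q : ℕ} (hq : 1 < q) {I : Finset ι} {α : ι → ℂ} {n : ι → ℕ}
    (hα : ∀ i ∈ I, ‖α i‖ ^ 2 = (q : ℝ) ^ n i) {β : ℂ} {j : ℕ} (hβj : ‖β‖ ^ 2 = (q : ℝ) ^ j)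
    {e m w : ℕ} (hm : 0 < m)
    (heq : ((∏ i ∈ I, α i) * (q : ℂ) ^ e * β) ^ m = (q : ℂ) ^ (m * w)) :
    ∑ i ∈ I, n i + 2 * e + j = 2 * w := by
  have hq1 : (1 : ℝ) < q := by exact_mod_cast hq
  have hq0 : (0 : ℝ) < q := by linarith
  have h1 := congrArg norm heq
  rw [norm_pow, norm_mul, norm_mul, norm_pow, norm_pow, Complex.norm_natCast, pow_mul',
    norm_prod] at h1
  have h2 := (pow_left_inj₀ (by positivity) (by positivity) hm.ne').mp h1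
  have h3 := congrArg (fun t => t ^ 2) h2
  rw [mul_pow, mul_pow, hβj, ← prod_pow, prod_congr rfl fun i hi => hα i hi,
    prod_pow_eq_pow_sum, ← pow_mul, ← pow_mul, ← pow_add, ← pow_add] at h3
  have h4 := pow_right_injective₀ hq0 hq1.ne' h3
  omega

/-- the condition on the level at an embedding -/
theorem lev_emb {q lam j : ℕ} (hq : 1 < q) {β : ℂ} (hβ : β ∈ AA)
    (hβj : ‖β‖ ^ 2 = (q : ℝ) ^ j) (hlev : IsIntegral ℤ ((q : ℂ) ^ lam * β / starRingEnd ℂ β))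
    (fe : AA →+* PadicAlgCl c) :
    ‖((q : ℕ) : PadicAlgCl c)‖ ^ lam * ‖fe ⟨β, hβ⟩‖ ^ 2 ≤ ‖((q : ℕ) : PadicAlgCl c)‖ ^ j := by
  have hq1 : (1 : ℝ) < q := by exact_mod_cast hq
  have hq0 : (0 : ℝ) < q := by linarith
  have hβ0 : β ≠ 0 := by
    intro h0
    rw [h0, norm_zero, zero_pow two_ne_zero] at hβj
    exact (pow_pos hq0 j).ne hβj
  set Q := ‖((q : ℕ) : PadicAlgCl c)‖ with hQ
  have hQ0 : 0 ≤ Q := norm_nonneg _
  set β' : AA := ⟨β, hβ⟩ with hβ'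
  have h2 : starRingEnd ℂ β ≠ 0 := by
    intro h0
    apply hβ0
    have h3 := congrArg (starRingEnd ℂ) h0
    rwa [Complex.conj_conj, map_zero] at h3
  have h3 : β * starRingEnd ℂ β = ((q : ℕ) : ℂ) ^ j := by
    rw [Complex.mul_conj, Complex.normSq_eq_norm_sq, hβj]
    push_cast
    rfl
  have h4 : (q : ℂ) ^ lam * β / starRingEnd ℂ β * ((q : ℕ) : ℂ) ^ j =
      (q : ℂ) ^ lam * β ^ 2 := by
    rw [← h3]
    field_simp
  obtain ⟨x, hx⟩ : ∃ x : AA, (x : ℂ) = (q : ℂ) ^ lam * β / starRingEnd ℂ β := by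
    refine ⟨⟨_, mem_algebraicClosure_iff.mpr ?_⟩, rfl⟩
    exact (hlev.tower_top (A := ℚ)).isAlgebraic
  have h5 : x * ((q : ℕ) : AA) ^ j = ((q : ℕ) : AA) ^ lam * β' ^ 2 := by
    apply Subtype.ext
    push_cast
    rw [hx]
    exact h4
  have h6 : IsIntegral ℤ x := by
    have h7 : IsIntegral ℤ (algebraMap AA ℂ x) := by
      show IsIntegral ℤ (x : ℂ)
      rw [hx]
      exact hlev
    exact (isIntegral_algebraMap_iff (algebraMap AA ℂ).injective).1 h7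
  have h7 : ‖fe x‖ ≤ 1 := norm_int_le (map_isIntegral_int fe h6)
  have h8 := congrArg norm (congrArg fe h5)
  rw [map_mul, map_mul, map_pow, map_pow, map_pow, map_natCast, norm_mul, norm_mul, norm_pow,
    norm_pow, norm_pow, ← hQ] at h8
  rw [← h8]
  exact mul_le_of_le_one_left (pow_nonneg hQ0 _) h7

/-- the relation at an embedding -/
theorem rel_emb {ι : Type} {q : ℕ} {I : Finset ι} {α : ι → ℂ} (hx : ∀ i ∈ I, α i ∈ AA)
    {β : ℂ} (hβ : β ∈ AA) {e m w : ℕ} (hm : 0 < m)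
    (heq : ((∏ i ∈ I, α i) * (q : ℂ) ^ e * β) ^ m = (q : ℂ) ^ (m * w))
    (fe : AA →+* PadicAlgCl c) :
    (∏ i ∈ I.attach, ‖fe ⟨α i.1, hx i.1 i.2⟩‖) * ‖((q : ℕ) : PadicAlgCl c)‖ ^ e *
      ‖fe ⟨β, hβ⟩‖ = ‖((q : ℕ) : PadicAlgCl c)‖ ^ w := by
  have h1 : ((∏ i ∈ I.attach, (⟨α i.1, hx i.1 i.2⟩ : AA)) *
      ((q : ℕ) : AA) ^ e * (⟨β, hβ⟩ : AA)) ^ m = ((q : ℕ) : AA) ^ (m * w) := by
    apply Subtype.ext
    push_cast
    rw [← heq, ← prod_attach I]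
  have h2 := congrArg norm (congrArg fe h1)
  rw [map_pow, map_mul, map_mul, map_pow, map_pow, map_natCast, map_prod, norm_pow,
    norm_mul, norm_mul, norm_pow, norm_pow, norm_prod, pow_mul'] at h2
  exact (pow_left_inj₀ (mul_nonneg (mul_nonneg (prod_nonneg fun i _ => norm_nonneg _)
    (pow_nonneg (norm_nonneg _) e)) (norm_nonneg _))
      (pow_nonneg (norm_nonneg _) w) hm.ne').mp h2

section

variable {ι : Type} {N lam : ℕ} (hN : 0 < N) {d n s : ι → ℕ}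
    (hd : ∀ i, 2 ≤ d i) (hdN : ∀ i, d i ∣ N) (κ : Type) [Field κ] [Fintype κ] [CharP κ c] {f : ℕ}
    (hf : Fintype.card κ = c ^ f) {z : ι → κ} (hz : ∀ i, IsPrimitiveRoot (z i) (d i))
    (l : ∀ i, Fin (s i) → Fin (n i + 1) → κ) (a : ∀ i, Fin (s i) → ℕ)
    (ha : ∀ i k, (a i k).Coprime (d i))
    {W : ι → Type} [∀ i, AddCommGroup (W i)] [∀ i, Module ℂ (W i)]
    [∀ i, FiniteDimensional ℂ (W i)] {Φ g : ∀ i, Module.End ℂ (W i)}
    (h : ∀ i, IsCov (d i) (l i) (a i) (z i) (Φ i) (g i))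

include hN hd hdN hf hz ha h

/-- level -/
theorem core_level {I : Finset ι} (hsmall : SmallI c f N lam d n s a I)
    {α : ι → ℂ} (hα : ∀ i ∈ I, (Φ i).HasEigenvalue (α i))
    (hpure : ∀ i ∈ I, ‖α i‖ ^ 2 = (Fintype.card κ : ℝ) ^ n i)
    {β : ℂ} (hβ : IsAlgebraic ℚ β) {j : ℕ} (hβj : ‖β‖ ^ 2 = (Fintype.card κ : ℝ) ^ j)
    (hlev : IsIntegral ℤ ((Fintype.card κ : ℂ) ^ lam * β / starRingEnd ℂ β)) {e m w : ℕ}
    (hm : 0 < m) (heq : ((∏ i ∈ I, α i) * (Fintype.card κ : ℂ) ^ e * β) ^ m =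
      (Fintype.card κ : ℂ) ^ (m * w)) : False := by
  classical
  have hq : 1 < Fintype.card κ := Fintype.one_lt_card
  have hq1 : (1 : ℝ) < Fintype.card κ := by exact_mod_cast hq
  have hq0 : (0 : ℝ) < Fintype.card κ := by linarith
  have hα0 : ∀ i ∈ I, α i ≠ 0 := by
    intro i hi h0
    have h1 := hpure i hi
    rw [h0, norm_zero, zero_pow two_ne_zero] at h1
    exact (pow_pos hq0 (n i)).ne h1
  obtain ⟨hx, fe, hfe⟩ := exists_small' hN hd hdN κ hf hz l a ha h hsmall hα hα0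
  have hw := weights hq hpure hβj hm heq
  have hβA : β ∈ AA := mem_algebraicClosure_iff.mpr hβ
  have hQ0 : 0 < ‖((Fintype.card κ : ℕ) : PadicAlgCl c)‖ := norm_card_pos (c := c) (L := κ)
  exact real_contra hQ0 hfe (rel_emb hx hβA hm heq fe) (lev_emb hq hβA hβj hlev fe) hw

/-- disjointness -/
theorem core_disj (hsmall : Small c f N d n s a)
    {F : IntermediateField ℚ ℂ} (hF : F ≤ AA) (hirr : Irreducible (cyclotomic N F))
    {I : Finset ι} (hI : I.Nonempty) {α : ι → ℂ} (hα : ∀ i ∈ I, (Φ i).HasEigenvalue (α i))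
    (hpure : ∀ i ∈ I, ‖α i‖ ^ 2 = (Fintype.card κ : ℝ) ^ n i)
    {β : ℂ} (hβ : β ∈ F) {j : ℕ} (hβj : ‖β‖ ^ 2 = (Fintype.card κ : ℝ) ^ j) {e m w : ℕ}
    (hm : 0 < m)
    (heq : ((∏ i ∈ I, α i) * (Fintype.card κ : ℂ) ^ e * β) ^ m =
      (Fintype.card κ : ℂ) ^ (m * w)) : False := by
  classical
  have hq : 1 < Fintype.card κ := Fintype.one_lt_card
  have hq1 : (1 : ℝ) < Fintype.card κ := by exact_mod_cast hq
  have hq0 : (0 : ℝ) < Fintype.card κ := by linarith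
  have hα0 : ∀ i ∈ I, α i ≠ 0 := by
    intro i hi h0
    have h1 := hpure i hi
    rw [h0, norm_zero, zero_pow two_ne_zero] at h1
    exact (pow_pos hq0 (n i)).ne h1
  obtain ⟨hx, hfe⟩ := exists_small hN hd hdN κ hf hz l a ha hsmall h hF hirr hI hα hα0
  have hw := weights hq hpure hβj hm heq
  have hβA : β ∈ AA := hF hβ
  set Q := ‖((Fintype.card κ : ℕ) : PadicAlgCl c)‖ with hQ
  have hQ0 : 0 < Q := norm_card_pos (c := c) (L := κ)
  have hβ0 : β ≠ 0 := by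
    intro h0
    rw [h0, norm_zero, zero_pow two_ne_zero] at hβj
    exact (pow_pos hq0 j).ne hβj
  have key : ∀ fe : AA →+* PadicAlgCl c,
      Q ^ (2 * w) < Q ^ (∑ i ∈ I, n i + 2 * e) * ‖fe ⟨β, hβA⟩‖ ^ 2 := by
    intro fe
    obtain ⟨fe', hfe1, hfe2⟩ := hfe fe
    have h3 := rel_emb hx hβA hm heq fe'
    rw [hfe1 β hβ, ← hQ] at h3
    set P := ∏ i ∈ I.attach, ‖fe' ⟨α i.1, hx i.1 i.2⟩‖ with hP
    have h4 : P ^ 2 * Q ^ (2 * e) * ‖fe ⟨β, hβA⟩‖ ^ 2 = Q ^ (2 * w) := by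
      have h5 : Q ^ (2 * w) = (Q ^ w) ^ 2 := by rw [← pow_mul, mul_comm]
      rw [h5, ← h3]
      ring
    have hβ1 : fe ⟨β, hβA⟩ ≠ 0 := by
      rw [Ne, map_eq_zero]
      intro h0
      exact hβ0 (congrArg Subtype.val h0)
    rw [← h4, pow_add]
    have h5 : 0 < ‖fe ⟨β, hβA⟩‖ ^ 2 := by positivity
    have h6 : 0 < Q ^ (2 * e) := by positivity
    exact mul_lt_mul_of_pos_right (mul_lt_mul_of_pos_right hfe2 h6) h5
  obtain ⟨fe⟩ : Nonempty (AA →+* PadicAlgCl c) := by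
    have : Algebra.IsAlgebraic ℚ AA := algebraicClosure.isAlgebraic ℚ ℂ
    exact ⟨((IsAlgClosed.lift : AA →ₐ[ℚ] PadicAlgCl c) : AA →+* PadicAlgCl c)⟩
  have k1 := key fe
  have k2 := key (fe.comp cj)
  have h1 : ‖fe ⟨β, hβA⟩‖ * ‖(fe.comp cj) ⟨β, hβA⟩‖ = Q ^ j := by
    rw [← norm_mul, RingHom.comp_apply, ← map_mul]
    have h2 : (⟨β, hβA⟩ : AA) * cj ⟨β, hβA⟩ = ((Fintype.card κ : ℕ) : AA) ^ j := by
      apply Subtype.ext
      push_cast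
      show β * starRingEnd ℂ β = _
      rw [Complex.mul_conj, Complex.normSq_eq_norm_sq, hβj]
      push_cast
      rfl
    rw [h2, map_pow, map_natCast, norm_pow]
  have h2 := mul_lt_mul'' k1 k2 (pow_nonneg hQ0.le _) (pow_nonneg hQ0.le _)
  have h3 : Q ^ (∑ i ∈ I, n i + 2 * e) * ‖fe ⟨β, hβA⟩‖ ^ 2 *
      (Q ^ (∑ i ∈ I, n i + 2 * e) * ‖(fe.comp cj) ⟨β, hβA⟩‖ ^ 2) =
      Q ^ (2 * (∑ i ∈ I, n i + 2 * e + j)) := by
    have h4 : Q ^ (2 * (∑ i ∈ I, n i + 2 * e + j)) =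
        Q ^ (∑ i ∈ I, n i + 2 * e) * Q ^ (∑ i ∈ I, n i + 2 * e) * (Q ^ j) ^ 2 := by
      rw [← pow_add, ← pow_mul, ← pow_add]
      congr 1
      ring
    rw [h4, ← h1]
    ring
  rw [h3, ← pow_add, hw] at h2
  have h5 : 2 * w + 2 * w = 2 * (2 * w) := by ring
  rw [h5] at h2
  exact lt_irrefl _ h2

end

end Pool.Agent.N876.FL
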