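import Pool.Agent.N876.FL.Lev

/-!
# The condition on the exponents: reduction to the divisors
-/

set_option autoImplicit false

namespace Pool.Agent.N876.FL

open Finset

/-- every number is a unit times the greatest common divisor -/
theorem exists_gcd_unit {N : ℕ} (hN : 0 < N) (j : ℕ) :
    ∃ u : ℕ, u.Coprime N ∧ u * j ≡ j.gcd N [MOD N] := by
  have hg : 0 < j.gcd N := Nat.gcd_pos_of_pos_right _ hN
  obtain ⟨j', hj'⟩ := Nat.gcd_dvd_left j N
  obtain ⟨N', hN'⟩ := Nat.gcd_dvd_right j N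
  set g := j.gcd N with hgdef
  have hN'0 : 0 < N' := by
    rcases Nat.eq_zero_or_pos N' with h | h
    · rw [h, mul_zero] at hN'
      omega
    · exact h
  have hco : j'.Coprime N' := by
    have h1 : g * j'.gcd N' = g := by
      rw [← Nat.gcd_mul_left, ← hj', ← hN']
    exact Nat.eq_of_mul_eq_mul_left hg (by rw [h1, mul_one])
  have : NeZero N := ⟨hN.ne'⟩
  have : NeZero N' := ⟨hN'0.ne'⟩
  have hdvd : N' ∣ N := ⟨g, by rw [mul_comm]; exact hN'⟩
  obtain ⟨u, hu⟩ := ZMod.unitsMap_surjective hdvd (ZMod.unitOfCoprime j' hco)⁻¹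
  refine ⟨(u : ZMod N).val, ZMod.val_coe_unit_coprime u, ?_⟩
  have h1 : ((u : ZMod N).val * j' : ℕ) ≡ 1 [MOD N'] := by
    rw [← ZMod.natCast_eq_natCast_iff]
    push_cast
    have h2 : (((u : ZMod N).val : ℕ) : ZMod N') = ((ZMod.unitOfCoprime j' hco)⁻¹ : (ZMod N')ˣ) := by
      rw [← hu, ZMod.unitsMap_val]
      rw [ZMod.cast_eq_val]
    rw [h2]
    have h3 : ((j' : ℕ) : ZMod N') = (ZMod.unitOfCoprime j' hco : (ZMod N')ˣ) := rfl
    rw [h3, ← Units.val_mul, inv_mul_cancel, Units.val_one]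
  have h2 := Nat.ModEq.mul_left' g h1
  rw [mul_one, ← hN'] at h2
  have h3 : g * ((u : ZMod N).val * j') = (u : ZMod N).val * j := by
    conv_rhs => rw [hj']
    ring
  rwa [h3] at h2

theorem gcd_proper {N j : ℕ} (hN : 0 < N) (hj : ¬ N ∣ j) : j.gcd N < N := by
  refine lt_of_le_of_ne (Nat.gcd_le_right _ hN) ?_
  intro h
  exact hj (h ▸ Nat.gcd_dvd_left j N)

end Pool.Agent.N876.FL
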