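import Pool.Agent.TH125.Gal.Lef
import Pool.Agent.TH132.A.Num
import Pool.Agent.N876.FL.Lin

/-!
# Products with varieties without resonances: cycles
-/

set_option autoImplicit false

open CategoryTheory AlgebraicGeometry
open scoped TensorProduct

universe u

namespace Pool.Agent.N876.FL

open Pool.Agent.H914 Pool.Agent.H914.VarClass Pool.Agent.H914.VarClass.Obj
  Pool.Agent.H914.WeilCohomology Pool.Agent.H281R3.HT Pool.Agent.W552 Pool.Agent.TH125.Gal

variable {k : Type u} [Field k] {𝒱 : VarClass k} {ops : CycleOps 𝒱}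
  {W : WeilCohomology.{u, 0} ops} {Γ : Type} [Group Γ] {χ : Γ →* W.Kˣ}

/-- the operator of an element of the group -/
def op (A : GVar W Γ) (σ : Γ) : Module.End W.K (W.H A.X) := (A.act σ).toLinearMap

theorem op_apply (A : GVar W Γ) (σ : Γ) (x : W.H A.X) : op A σ x = A.act σ x := rfl

theorem op_pow (A : GVar W Γ) (σ : Γ) (m : ℕ) : (op A σ) ^ m = op A (σ ^ m) := by
  induction m with
  | zero =>
    rw [pow_zero, pow_zero]
    refine LinearMap.ext fun x => ?_
    rw [op_apply, map_one]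
    rfl
  | succ m ih =>
    rw [pow_succ, pow_succ, ih]
    refine LinearMap.ext fun x => ?_
    rw [Module.End.mul_apply, op_apply, op_apply, op_apply, map_mul]
    rfl

/-- a power of the Frobenius acts on a class by a power of `q` -/
theorem pow_class {A : GVar W Γ} (hA : IsGaloisVar χ A) (σ : Γ) {j : ℕ} {c : W.H A.X}
    (hc : c ∈ algClasses W A.X j) :
    ∃ m : ℕ, 0 < m ∧ ((op A σ) ^ m) c = ((χ σ : W.Kˣ) : W.K) ^ (m * j) • c := by
  obtain ⟨Δ, hΔ, h⟩ := hA.cl_fix j c hc
  obtain ⟨m, hm, hmΔ⟩ := Subgroup.exists_pow_mem_of_index_ne_zero hΔ.index_ne_zero σ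
  refine ⟨m, hm, ?_⟩
  rw [op_pow, op_apply, h _ hmΔ.2, map_pow, Units.val_pow_eq_pow_val, ← pow_mul]

theorem alg_stable {A : GVar W Γ} (hA : IsGaloisVar χ A) (σ : Γ) :
    ∀ x ∈ algSpan W A.X, op A σ x ∈ algSpan W A.X := by
  intro x hx
  induction hx using Submodule.span_induction with
  | mem x hx =>
    obtain ⟨j, hj⟩ := Set.mem_iUnion.1 hx
    obtain ⟨c', hc', h⟩ := hA.cl_act σ j x hj
    rw [op_apply, h]
    exact Submodule.smul_mem _ _ (Submodule.subset_span (Set.mem_iUnion.2 ⟨j, hc'⟩))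
  | zero => rw [map_zero]; exact Submodule.zero_mem _
  | add x y _ _ hx hy => rw [map_add]; exact Submodule.add_mem _ hx hy
  | smul r x _ hx => rw [map_smul]; exact Submodule.smul_mem _ _ hx

/-- the cohomology is generated by the algebraic classes and a subspace on which the Frobenius has
eigenvalues in `S` -/
structure Cv (A : GVar W Γ) (σ : Γ) (S : Set W.K) : Prop where
  ex : ∃ (T : Submodule W.K (W.H A.X)) (hT : ∀ t ∈ T, op A σ t ∈ T), algSpan W A.X ⊔ T = ⊤ ∧
    ∀ α, Module.End.HasEigenvalue ((op A σ).restrict hT) α → α ∈ S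

/-- the eigenvalues -/
def Eig (A : GVar W Γ) (σ : Γ) (S : Set W.K) : Prop := ∀ α, (op A σ).HasEigenvalue α → α ∈ S

/-- no resonances -/
def Res {K : Type} [Field K] (q : K) (SA SB : Set K) : Prop :=
  ∀ α ∈ SA, ∀ β ∈ SB, ∀ m w : ℕ, 0 < m → (α * β) ^ m ≠ q ^ (m * w)

/-- the Künneth formula is equivariant -/
theorem kun_op {A B : GVar W Γ} {υ : Γ →* (W.H (A.X.prod B.X) ≃ₐ[W.K] W.H (A.X.prod B.X))}
    (h1 : Equivariant (A := ⟨A.X.prod B.X, υ⟩) (B := A) (fst A.X B.X))
    (h2 : Equivariant (A := ⟨A.X.prod B.X, υ⟩) (B := B) (snd A.X B.X)) (σ : Γ) (m : ℕ)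
    (u : W.H A.X ⊗[W.K] W.H B.X) :
    ((op (⟨A.X.prod B.X, υ⟩ : GVar W Γ) σ) ^ m)
      (kunnethMap (W.map (fst A.X B.X)) (W.map (snd A.X B.X)) u) =
    kunnethMap (W.map (fst A.X B.X)) (W.map (snd A.X B.X))
      (((TensorProduct.map (op A σ) (op B σ)) ^ m) u) := by
  have h3 : ∀ u : W.H A.X ⊗[W.K] W.H B.X, op (⟨A.X.prod B.X, υ⟩ : GVar W Γ) σ
      (kunnethMap (W.map (fst A.X B.X)) (W.map (snd A.X B.X)) u) =
    kunnethMap (W.map (fst A.X B.X)) (W.map (snd A.X B.X))
      ((TensorProduct.map (op A σ) (op B σ)) u) := by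
    intro u
    induction u using TensorProduct.induction_on with
    | zero => simp only [map_zero]
    | tmul a b =>
      change υ σ (W.map (fst A.X B.X) a * W.map (snd A.X B.X) b) =
        W.map (fst A.X B.X) (A.act σ a) * W.map (snd A.X B.X) (B.act σ b)
      rw [map_mul]
      have e1 : υ σ (W.map (fst A.X B.X) a) = W.map (fst A.X B.X) (A.act σ a) := h1 σ a
      have e2 : υ σ (W.map (snd A.X B.X) b) = W.map (snd A.X B.X) (B.act σ b) := h2 σ b
      rw [e1, e2]
    | add x y hx hy => simp only [map_add, hx, hy]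
  induction m generalizing u with
  | zero => rfl
  | succ m ih =>
    rw [pow_succ, Module.End.mul_apply, h3, ih, pow_succ (TensorProduct.map (op A σ) (op B σ)),
      Module.End.mul_apply]

/-- the image of the combinations of products with algebraic classes -/
theorem kun_range {X Y : 𝒱.Obj} (u : (algSpan W X : Submodule W.K (W.H X)) ⊗[W.K] W.H Y) :
    kunnethMap (W.map (fst X Y)) (W.map (snd X Y))
      (((algSpan W X).subtype.rTensor (W.H Y)) u) ∈
        Submodule.span W.K {w | ∃ x y, AS W X x ∧ w = ext W x y} := by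
  induction u using TensorProduct.induction_on with
  | zero => rw [map_zero, map_zero]; exact Submodule.zero_mem _
  | tmul a b =>
    obtain ⟨a, ha⟩ := a
    have h0 : ∀ a ∈ Submodule.span W.K {x | AS W X x}, W.map (fst X Y) a * W.map (snd X Y) b ∈
        Submodule.span W.K {w | ∃ x y, AS W X x ∧ w = ext W x y} := by
      intro a ha
      induction ha using Submodule.span_induction with
      | mem a ha => exact Submodule.subset_span ⟨a, b, ha, rfl⟩
      | zero => rw [map_zero, zero_mul]; exact Submodule.zero_mem _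
      | add x y _ _ hx hy => rw [map_add, add_mul]; exact Submodule.add_mem _ hx hy
      | smul r x _ hx => rw [map_smul, smul_mul_assoc]; exact Submodule.smul_mem _ _ hx
    rw [LinearMap.rTensor_tmul]
    exact h0 a (by rw [← Pool.Agent.TH125.Gal.algSpan_eq]; exact ha)
  | add x y hx hy => rw [map_add, map_add]; exact Submodule.add_mem _ hx hy

variable [IsAlgClosed W.K]

/-- the classes of cycles on the product -/
theorem span_of_res {A B C : GVar W Γ} (hA : IsGaloisVar χ A) (hC : IsGaloisVar χ C)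
    (hABC : IsProdVar A B C) {σ : Γ} {SA SB : Set W.K} (hSA : Cv A σ SA) (hSB : Eig B σ SB)
    (hres : Res ((χ σ : W.Kˣ) : W.K) SA SB) :
    ∀ z, AS W (A.X.prod B.X) z →
      z ∈ Submodule.span W.K {w | ∃ x y, AS W A.X x ∧ w = ext W x y} := by
  obtain ⟨υ, h1, h2⟩ := hABC
  obtain ⟨T, hT, hPT, hTS⟩ := hSA.ex
  intro z hz
  refine AS.ind (p := fun z => z ∈ Submodule.span W.K {w | ∃ x y, AS W A.X x ∧ w = ext W x y})
    ?_ (fun _ _ ha hb => Submodule.add_mem _ ha hb) hz
  intro j x hx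
  obtain ⟨m, hm, hmx⟩ := pow_class hC σ hx
  obtain ⟨u, rfl⟩ := (W.kunneth A.X B.X).2 x
  have h3 : ((TensorProduct.map (op A σ) (op B σ)) ^ m) u =
      ((χ σ : W.Kˣ) : W.K) ^ (m * j) • u := by
    apply (W.kunneth A.X B.X).1
    rw [← kun_op h1 h2, map_smul]
    exact hmx
  have h4 := mem_of_res (alg_stable hA σ) hT hPT (fun α β hα hβ =>
    hres α (hTS α hα) β (hSB β hβ) m j hm) h3
  obtain ⟨u', rfl⟩ := h4
  exact kun_range u'

end Pool.Agent.N876.FL
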