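import Pool.Agent.N876.FL.Geo

/-!
# Products with varieties without resonances: the conjectures A and D for towers
-/

set_option autoImplicit false

open CategoryTheory AlgebraicGeometry
open scoped TensorProduct

universe u

namespace Pool.Agent.N876.FL

open Pool.Agent.H914 Pool.Agent.H914.VarClass Pool.Agent.H914.VarClass.Obj
  Pool.Agent.H914.WeilCohomology Pool.Agent.H281R3.HT Pool.Agent.W552 Pool.Agent.TH125.Gal

variable {k : Type u} [Field k] {𝒱 : VarClass k} {ops : CycleOps 𝒱}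
  {W : WeilCohomology.{u, 0} ops} {Γ : Type} [Group Γ] {χ : Γ →* W.Kˣ}

theorem alg_ann {A : GVar W Γ} (hA : IsGaloisVar χ A) (σ : Γ) :
    ∀ x ∈ algSpan W A.X, ∃ l : List (ℕ × ℕ), (∀ e ∈ l, 0 < e.1) ∧
      Polynomial.aeval (op A σ) (l.map fun e => (Polynomial.X ^ e.1 -
        Polynomial.C (((χ σ : W.Kˣ) : W.K) ^ (e.1 * e.2)) : Polynomial W.K)).prod x = 0 := by
  intro x hx
  induction hx using Submodule.span_induction with
  | mem x hx =>
    obtain ⟨j, hj⟩ := Set.mem_iUnion.1 hx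
    obtain ⟨m, hm, h⟩ := pow_class hA σ hj
    refine ⟨[(m, j)], ?_, ?_⟩
    · intro e he
      rw [List.mem_singleton.1 he]
      exact hm
    · rw [List.map_singleton, List.prod_singleton, map_sub, map_pow, Polynomial.aeval_X,
        Polynomial.aeval_C, LinearMap.sub_apply, h, Module.algebraMap_end_apply, sub_self]
  | zero => exact ⟨[], by simp, by rw [map_zero]⟩
  | add x y _ _ hx hy =>
    obtain ⟨l, hl, h⟩ := hx
    obtain ⟨l', hl', h'⟩ := hy
    refine ⟨l ++ l', ?_, ?_⟩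
    · intro e he
      rcases List.mem_append.1 he with h1 | h1
      · exact hl e h1
      · exact hl' e h1
    · rw [List.map_append, List.prod_append, map_add]
      have h1 : Polynomial.aeval (op A σ) ((l.map fun e => (Polynomial.X ^ e.1 -
          Polynomial.C (((χ σ : W.Kˣ) : W.K) ^ (e.1 * e.2)) : Polynomial W.K)).prod *
          (l'.map fun e => (Polynomial.X ^ e.1 -
          Polynomial.C (((χ σ : W.Kˣ) : W.K) ^ (e.1 * e.2)) : Polynomial W.K)).prod) x = 0 := by
        rw [mul_comm, map_mul, Module.End.mul_apply, h, map_zero]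
      rw [h1, map_mul, Module.End.mul_apply, h', map_zero, zero_add]
  | smul r x _ hx =>
    obtain ⟨l, hl, h⟩ := hx
    exact ⟨l, hl, by rw [map_smul, h, smul_zero]⟩

/-- the eigenvalues of the Frobenius of a factor -/
theorem eig_factor {A : GVar W Γ} (hA : IsGaloisVar χ A) {σ : Γ} {S : Set W.K} (hS : Cv A σ S)
    {α : W.K} (hα : (op A σ).HasEigenvalue α) :
    α ∈ S ∨ ∃ m j : ℕ, 0 < m ∧ α ^ m = ((χ σ : W.Kˣ) : W.K) ^ (m * j) := by
  obtain ⟨T, hT, hPT, hTS⟩ := hS.ex
  obtain ⟨v, hv⟩ := hα.exists_hasEigenvector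
  by_cases hvP : v ∈ algSpan W A.X
  · right
    obtain ⟨l, hl, h⟩ := alg_ann hA σ v hvP
    rw [Module.End.aeval_apply_of_hasEigenvector hv] at h
    have h1 := (smul_eq_zero.1 h).resolve_right hv.2
    rw [Polynomial.eval_list_prod, List.prod_eq_zero_iff, List.mem_map] at h1
    obtain ⟨p, hp, hp0⟩ := h1
    obtain ⟨e, he, rfl⟩ := List.mem_map.1 hp
    rw [Polynomial.eval_sub, Polynomial.eval_pow, Polynomial.eval_X, Polynomial.eval_C,
      sub_eq_zero] at hp0
    exact ⟨e.1, e.2, hl e he, hp0⟩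
  · left
    refine hTS α (eig_quot (alg_stable hA σ) hT hPT ?_)
    refine Module.End.hasEigenvalue_of_hasEigenvector (x := (algSpan W A.X).mkQ v) ?_
    refine Module.End.hasEigenvector_iff.2 ⟨Module.End.mem_eigenspace_iff.2 ?_, ?_⟩
    · have h1 : Submodule.mapQ (algSpan W A.X) (algSpan W A.X) (op A σ) (alg_stable hA σ)
          ((algSpan W A.X).mkQ v) = (algSpan W A.X).mkQ (op A σ v) := rfl
      rw [h1, hv.apply_eq_smul, map_smul]
    · intro h0
      exact hvP ((Submodule.Quotient.mk_eq_zero _).1 h0)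

/-- the classes of cycles of a factor -/
theorem homEqNum_of_res [IsAlgClosed W.K] {A : GVar W Γ} (hA : IsGaloisVar χ A) {σ : Γ}
    {S : Set W.K} (hS : Cv A σ S)
    (hres : ∀ α ∈ S, ∀ m w : ℕ, 0 < m → α ^ m ≠ ((χ σ : W.Kˣ) : W.K) ^ (m * w)) :
    HomEqNum W A.X := by
  obtain ⟨T, hT, hPT, hTS⟩ := hS.ex
  intro j hj z hz hnum
  set x := W.cl A.X z with hx
  have hxj : x ∈ algClasses W A.X j := ⟨z, hz, rfl⟩
  have h0 : ∀ y, AS W A.X y → W.tr A.X (x * y) = 0 := by
    intro y hy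
    refine AS.ind (p := fun y => W.tr A.X (x * y) = 0) ?_ ?_ hy
    · rintro i _ ⟨w, hw, rfl⟩
      by_cases hi : j + i = A.X.dim
      · have h1 := ops.mul_mem hz hw
        rw [hi] at h1
        rw [hx, ← W.cl_mul, W.tr_cl h1, hnum w (by rwa [show A.X.dim - j = i by omega]),
          Rat.cast_zero]
      · exact W.tr_eq_zero (W.mul_mem (W.cl_mem hz) (W.cl_mem hw)) (by omega)
    · intro a b ha hb
      rw [mul_add, map_add, ha, hb, add_zero]
  have h1 : ∀ y ∈ algSpan W A.X, W.tr A.X (x * y) = 0 := by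
    intro y hy
    rw [Pool.Agent.TH125.Gal.algSpan_eq] at hy
    induction hy using Submodule.span_induction with
    | mem y hy => exact h0 y hy
    | zero => rw [mul_zero, map_zero]
    | add a b _ _ ha hb => rw [mul_add, map_add, ha, hb, add_zero]
    | smul r a _ ha => rw [mul_smul_comm, map_smul, ha, smul_zero]
  set q : W.K := ((χ σ : W.Kˣ) : W.K) with hq
  have hq0 : q ≠ 0 := Units.ne_zero _
  obtain ⟨m, hm, hmx⟩ := pow_class hA σ hxj
  set Φ : Module.End W.K T := (op A σ).restrict hT with hΦ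
  let ℓ : T →ₗ[W.K] W.K := (W.tr A.X) ∘ₗ (LinearMap.mulLeft W.K x) ∘ₗ T.subtype
  have hℓ : ∀ t : T, ℓ t = W.tr A.X (x * t.1) := fun t => rfl
  have hpow : ∀ (m : ℕ) (t : T), ((Φ ^ m) t).1 = ((op A σ) ^ m) t.1 := by
    intro m
    induction m with
    | zero => intro t; rfl
    | succ m ih =>
      intro t
      rw [pow_succ, Module.End.mul_apply, ih, pow_succ, Module.End.mul_apply]
      rfl
  have h2 : ∀ t : T, ℓ ((Φ ^ m) t) = q ^ (m * (A.X.dim - j)) * ℓ t := by
    intro t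
    have h3 := hA.tr_act (σ ^ m) (x * t.1)
    rw [map_mul, map_pow χ, Units.val_pow_eq_pow_val, ← pow_mul] at h3
    have h4 : A.act (σ ^ m) x = q ^ (m * j) • x := by
      rw [← hmx, op_pow]
      rfl
    have h5 : A.act (σ ^ m) t.1 = ((Φ ^ m) t).1 := by
      rw [hpow, op_pow]
      rfl
    rw [h4, h5, smul_mul_assoc, map_smul, smul_eq_mul] at h3
    have h6 : q ^ (m * A.X.dim) = q ^ (m * j) * q ^ (m * (A.X.dim - j)) := by
      rw [← pow_add, ← mul_add]
      congr 2
      omega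
    rw [hℓ, hℓ]
    rw [← hq, h6, mul_assoc] at h3
    exact mul_left_cancel₀ (pow_ne_zero _ hq0) h3
  have h3 : ∀ t : T, ℓ t = 0 := by
    by_contra hcon
    push Not at hcon
    obtain ⟨t0, ht0⟩ := hcon
    have h4 : ¬ Function.Surjective ((Φ ^ m) - (q ^ (m * (A.X.dim - j))) •
        (1 : Module.End W.K T)) := by
      intro hs
      obtain ⟨s, hs⟩ := hs t0
      apply ht0
      rw [← hs, LinearMap.sub_apply, LinearMap.smul_apply, Module.End.one_apply, map_sub, map_smul,
        h2, smul_eq_mul, sub_self]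
    have h5 : (Φ ^ m).HasEigenvalue (q ^ (m * (A.X.dim - j))) := by
      by_contra h6
      exact h4 (LinearMap.injective_iff_surjective.1 (inj_of_not_eig h6))
    have h6 : q ^ (m * (A.X.dim - j)) ∈ spectrum W.K (Φ ^ m) :=
      Module.End.hasEigenvalue_iff_mem_spectrum.mp h5
    rw [spectrum.map_pow_of_pos Φ hm] at h6
    obtain ⟨α, hα, hαm⟩ := h6
    exact hres α (hTS α (Module.End.hasEigenvalue_iff_mem_spectrum.mpr hα)) m _ hm hαm
  refine W.nondeg x fun b => ?_
  have hb : b ∈ algSpan W A.X ⊔ T := by rw [hPT]; trivial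
  obtain ⟨p, hp, t, ht, rfl⟩ := Submodule.mem_sup.1 hb
  rw [mul_add, map_add, h1 p hp, zero_add]
  exact h3 ⟨t, ht⟩

/-- the eigenvalues of the product -/
theorem eig_prod [IsAlgClosed W.K] {A B C : GVar W Γ} (hABC : IsProdVar A B C) {σ : Γ} {γ : W.K}
    (hγ : (op C σ).HasEigenvalue γ) :
    ∃ α β, (op A σ).HasEigenvalue α ∧ (op B σ).HasEigenvalue β ∧ α * β = γ := by
  obtain ⟨υ, h1, h2⟩ := hABC
  obtain ⟨v, hv⟩ := hγ.exists_hasEigenvector
  obtain ⟨u, rfl⟩ := (W.kunneth A.X B.X).2 v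
  have hu0 : u ≠ 0 := by
    rintro rfl
    exact hv.2 (map_zero _)
  have h3 : ((TensorProduct.map (op A σ) (op B σ)) ^ 1) u = γ • u := by
    apply (W.kunneth A.X B.X).1
    rw [← kun_op h1 h2, map_smul, pow_one]
    exact hv.apply_eq_smul
  obtain ⟨α, β, hα, hβ, h4⟩ := eig_tensor hu0 h3
  exact ⟨α, β, hα, hβ, by rw [← h4, pow_one]⟩

end Pool.Agent.N876.FL
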