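import Pool.Agent.N876.FL.Res
import Pool.Agent.N876.UV.Crit

/-!
# No resonances with motives of small level
-/

set_option autoImplicit false

namespace Pool.Agent.N876.FL

open Finset Polynomial Pool.Agent.N876.TC Pool.Agent.N876.UV Pool.Agent.W528.HA Pool.Agent.W528.HB

variable {c : ℕ} [Fact c.Prime]

/-- an embedding for which all the eigenvalues are small -/
theorem exists_small' {ι : Type} {N δ : ℕ} (hN : 0 < N) {d n s : ι → ℕ}
    (hd : ∀ i, 2 ≤ d i) (hdN : ∀ i, d i ∣ N) (κ : Type) [Field κ] [Fintype κ] [CharP κ c] {f : ℕ}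
    (hf : Fintype.card κ = c ^ f) {z : ι → κ} (hz : ∀ i, IsPrimitiveRoot (z i) (d i))
    (l : ∀ i, Fin (s i) → Fin (n i + 1) → κ) (a : ∀ i, Fin (s i) → ℕ)
    (ha : ∀ i k, (a i k).Coprime (d i))
    {W : ι → Type} [∀ i, AddCommGroup (W i)] [∀ i, Module ℂ (W i)]
    [∀ i, FiniteDimensional ℂ (W i)] {Φ g : ∀ i, Module.End ℂ (W i)}
    (h : ∀ i, IsCov (d i) (l i) (a i) (z i) (Φ i) (g i))
    {I : Finset ι} (hsmall : SmallI c f N δ d n s a I) {α : ι → ℂ}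
    (hα : ∀ i ∈ I, (Φ i).HasEigenvalue (α i)) (hα0 : ∀ i ∈ I, α i ≠ 0) :
    ∃ hx : ∀ i ∈ I, α i ∈ AA, ∃ fe : AA →+* PadicAlgCl c,
      (∏ i ∈ I.attach, ‖fe ⟨α i.1, hx i.1 i.2⟩‖) ^ 2 <
        ‖((Fintype.card κ : ℕ) : PadicAlgCl c)‖ ^ (∑ i ∈ I, n i + δ) := by
  classical
  obtain ⟨k, _, R, res, _, _, hR⟩ := Pool.Agent.W999.HB.TP.main c
  have _ : Algebra (ZMod c) κ := ZMod.algebra κ c
  have _ : Algebra (ZMod c) k := ZMod.algebra k c
  have hκk : Nonempty (κ →ₐ[ZMod c] k) := ⟨IsAlgClosed.lift⟩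
  obtain ⟨eκ'⟩ := hκk
  set eκ : κ →+* k := (eκ' : κ →+* k)
  have hOm : ∀ i, ∃ Ω : PadicAlgCl c, IsPrimitiveRoot Ω (d i) ∧
      ∃ h : Ω ∈ R, res ⟨Ω, h⟩ = eκ (z i) := fun i => exists_Om (hd i) hf (hz i) hR eκ
  choose Ω hΩ hΩz using hOm
  have hcs := fun (i : ι) (hi : i ∈ I) => cov_slope (hd i) κ hf (hz i) hR eκ (hΩ i) (hΩz i) (l i)
    (a i) (ha i) (h i) (hα i hi) (hα0 i hi)
  choose hx μ hμ1 hμ2 hμ3 using hcs
  refine ⟨hx, ?_⟩
  have hbot : (⊥ : IntermediateField ℚ ℂ) ≤ AA := bot_le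
  obtain ⟨fe⟩ : Nonempty (AA →+* PadicAlgCl c) := by
    have : Algebra.IsAlgebraic ℚ AA := algebraicClosure.isAlgebraic ℚ ℂ
    exact ⟨((IsAlgClosed.lift : AA →ₐ[ℚ] PadicAlgCl c) : AA →+* PadicAlgCl c)⟩
  -- the exponents
  have hj : ∀ i (hi : i ∈ I), ∃ j : ℕ, ¬ d i ∣ j ∧ fe (μ i hi) = Ω i ^ j := by
    intro i hi
    have : NeZero (d i) := ⟨by have := hd i; omega⟩
    obtain ⟨j, _, hj⟩ := (hΩ i).eq_pow_of_pow_eq_one (ξ := fe (μ i hi))
      (by rw [← map_pow, hμ1, map_one])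
    refine ⟨j, ?_, hj.symm⟩
    intro h0
    apply hμ2 i hi
    apply fe.injective
    rw [← hj, map_one]
    exact ((hΩ i).pow_eq_one_iff_dvd j).mpr h0
  choose j0 hj0 hj1 using hj
  set j : ι → ℕ := fun i => if hi : i ∈ I then j0 i hi else 0 with hjdef
  have hjI : ∀ i (hi : i ∈ I), j i = j0 i hi := by
    intro i hi
    simp only [hjdef]
    rw [dif_pos hi]
  obtain ⟨u, hu, hlt⟩ := hsmall j (fun i hi => by rw [hjI i hi]; exact hj0 i hi)
  -- a primitive root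
  set ζ : AA := ⟨th N, th_mem hN⟩ with hζdef
  have hζ : IsPrimitiveRoot ζ N :=
    IsPrimitiveRoot.of_map_of_injective (f := algebraMap AA ℂ) (th_prim hN)
      (algebraMap AA ℂ).injective
  obtain ⟨fe', -, hfe2⟩ := emb hbot hN (irr_bot hN) fe hζ hu
  refine ⟨fe', ?_⟩
  have hμ' : ∀ i (hi : i ∈ I), fe' (μ i hi) = Ω i ^ (u * j i) := by
    intro i hi
    have : NeZero N := ⟨hN.ne'⟩
    obtain ⟨t, _, ht⟩ := hζ.eq_pow_of_pow_eq_one (ξ := μ i hi) (by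
      obtain ⟨v, hv⟩ := hdN i
      rw [hv, pow_mul, hμ1, one_pow])
    have h1 : fe' (μ i hi) = fe (μ i hi) ^ u := by
      rw [← ht, map_pow, map_pow, hfe2, ← pow_mul, ← pow_mul, mul_comm]
    rw [h1, hj1 i hi, ← pow_mul, hjI i hi, mul_comm]
  have hnd : ∀ i (hi : i ∈ I), ¬ d i ∣ u * j i := by
    intro i hi h0
    have h1 : (d i).Coprime u := (Nat.Coprime.coprime_dvd_right (hdN i) hu).symm
    rw [hjI i hi] at h0
    exact hj0 i hi (h1.dvd_of_dvd_mul_left h0)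
  have hest := fun i (hi : i ∈ I) => hμ3 i hi fe' (u * j i) (hnd i hi) (hμ' i hi)
  set ρ := ‖((c : ℕ) : PadicAlgCl c)‖ with hρ
  have hρ0 : 0 < ρ := norm_c_pos
  have hρ1 : ρ < 1 := norm_c_lt
  set A : ι → ℕ := fun i => ∑ k, ∑ t ∈ range f, (u * j i * a i k * c ^ t) % d i with hAdef
  set P := ∏ i ∈ I.attach, ‖fe' ⟨α i.1, hx i.1 i.2⟩‖ with hP
  have hP0 : 0 ≤ P := prod_nonneg fun i _ => norm_nonneg _
  have h1 : P ^ N * ρ ^ (∑ i ∈ I, (N / d i) * A i) ≤ ρ ^ (∑ i ∈ I, f * (n i + 1) * N) := by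
    rw [hP, ← prod_pow, ← prod_pow_eq_pow_sum, ← prod_pow_eq_pow_sum,
      ← prod_attach I (fun i => ρ ^ ((N / d i) * A i)),
      ← prod_attach I (fun i => ρ ^ (f * (n i + 1) * N)), ← prod_mul_distrib]
    apply prod_le_prod
    · intro i _
      exact mul_nonneg (pow_nonneg (norm_nonneg _) _) (pow_nonneg hρ0.le _)
    · intro i _
      have h2 := pow_le_pow_left₀ (mul_nonneg (pow_nonneg (norm_nonneg _) _)
        (pow_nonneg hρ0.le _)) (hest i.1 i.2) (N / d i.1)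
      have h3 : d i.1 * (N / d i.1) = N := Nat.mul_div_cancel' (hdN i.1)
      rw [mul_pow, ← pow_mul, ← pow_mul, ← pow_mul, h3] at h2
      have h4 : f * (n i.1 + 1) * d i.1 * (N / d i.1) = f * (n i.1 + 1) * N := by
        rw [mul_assoc _ (d i.1), h3]
      rw [h4] at h2
      rw [mul_comm (N / d i.1)]
      exact h2
  have hq : ‖((Fintype.card κ : ℕ) : PadicAlgCl c)‖ = ρ ^ f := by
    rw [hf]
    push_cast
    rw [norm_pow]
  rw [hq, ← pow_mul]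
  set B := ∑ i ∈ I, (N / d i) * A i with hB
  have h5 : ∑ i ∈ I, f * (n i + 1) * N = f * N * ∑ i ∈ I, (n i + 1) := by
    rw [mul_sum]
    exact sum_congr rfl fun i _ => by ring
  have h6 : ∑ i ∈ I, (n i + 2) + ∑ i ∈ I, n i = 2 * ∑ i ∈ I, (n i + 1) := by
    rw [← sum_add_distrib, mul_sum]
    exact sum_congr rfl fun i _ => by ring
  have h7 : (P ^ 2) ^ N * ρ ^ (2 * B) ≤ ρ ^ (2 * (f * N * ∑ i ∈ I, (n i + 1))) := by
    have h8 := pow_le_pow_left₀ (mul_nonneg (pow_nonneg hP0 _) (pow_nonneg hρ0.le _)) h1 2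
    rw [mul_pow, ← pow_mul, ← pow_mul, ← pow_mul, h5, mul_comm N 2, pow_mul, mul_comm B 2,
      mul_comm _ 2] at h8
    exact h8
  have h9 : 2 * (f * N * ∑ i ∈ I, (n i + 1)) = f * N * ∑ i ∈ I, (n i + 2) + f * N * ∑ i ∈ I, n i := by
    rw [← mul_add, h6]
    ring
  rw [h9, pow_add] at h7
  have h10 : ρ ^ (f * N * ∑ i ∈ I, (n i + 2)) < ρ ^ (2 * B + f * N * δ) :=
    pow_lt_pow_right_of_lt_one₀ hρ0 hρ1 hlt
  have h11 : (P ^ 2) ^ N * ρ ^ (2 * B) < ρ ^ (2 * B + f * N * δ) * ρ ^ (f * N * ∑ i ∈ I, n i) :=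
    lt_of_le_of_lt h7 (mul_lt_mul_of_pos_right h10 (pow_pos hρ0 _))
  have h12 : (P ^ 2) ^ N < (ρ ^ (f * (∑ i ∈ I, n i + δ))) ^ N := by
    rw [pow_add, mul_assoc, mul_comm (ρ ^ (2 * B))] at h11
    have h13 := lt_of_mul_lt_mul_right h11 (pow_nonneg hρ0.le _)
    rw [← pow_add] at h13
    have h14 : f * N * δ + f * N * ∑ i ∈ I, n i = f * (∑ i ∈ I, n i + δ) * N := by ring
    rw [h14, pow_mul ρ _ N] at h13
    exact h13
  exact lt_of_pow_lt_pow_left₀ N (pow_nonneg hρ0.le _) h12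

/-- the level of a motive -/
def Lev (q lam : ℕ) {B : Type} [AddCommGroup B] [Module ℂ B] (Φ : Module.End ℂ B) : Prop :=
  ∀ β, Φ.HasEigenvalue β → IsIntegral ℤ ((q : ℂ) ^ lam * β / starRingEnd ℂ β)

/-- the contradiction -/
theorem real_contra {P Q y : ℝ} (hQ0 : 0 < Q) {S lam e w j : ℕ} (hfe : P ^ 2 < Q ^ (S + lam))
    (h3 : P * Q ^ e * y = Q ^ w) (hlev' : Q ^ lam * y ^ 2 ≤ Q ^ j) (hw : S + 2 * e + j = 2 * w) :
    False := by
  have h4 : P ^ 2 * Q ^ (2 * e) * (Q ^ lam * y ^ 2) = Q ^ (2 * w) * Q ^ lam := by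
    have h5 : Q ^ (2 * w) = (Q ^ w) ^ 2 := by rw [← pow_mul, mul_comm]
    rw [h5, ← h3]
    ring
  have h5 : P ^ 2 * Q ^ (2 * e) * (Q ^ lam * y ^ 2) ≤ P ^ 2 * Q ^ (2 * e) * Q ^ j :=
    mul_le_mul_of_nonneg_left hlev' (by positivity)
  have h6 : P ^ 2 * (Q ^ (2 * e) * Q ^ j) < Q ^ (S + lam) * (Q ^ (2 * e) * Q ^ j) :=
    mul_lt_mul_of_pos_right hfe (by positivity)
  have h7 : Q ^ (S + lam) * (Q ^ (2 * e) * Q ^ j) = Q ^ (2 * w) * Q ^ lam := by
    rw [← hw, ← pow_add, ← pow_add, ← pow_add]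
    congr 1
    ring
  rw [h7, ← mul_assoc] at h6
  rw [h4] at h5
  exact absurd (lt_of_le_of_lt h5 h6) (lt_irrefl _)

/-- no resonances -/
theorem nores_level {ι : Type} {N lam : ℕ} (hN : 0 < N) {d n s : ι → ℕ}
    (hd : ∀ i, 2 ≤ d i) (hdN : ∀ i, d i ∣ N) (κ : Type) [Field κ] [Fintype κ] [CharP κ c] {f : ℕ}
    (hf : Fintype.card κ = c ^ f) {z : ι → κ} (hz : ∀ i, IsPrimitiveRoot (z i) (d i))
    (l : ∀ i, Fin (s i) → Fin (n i + 1) → κ) (a : ∀ i, Fin (s i) → ℕ)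
    (ha : ∀ i k, (a i k).Coprime (d i))
    {W : ι → Type} [∀ i, AddCommGroup (W i)] [∀ i, Module ℂ (W i)]
    [∀ i, FiniteDimensional ℂ (W i)] {Φ g : ∀ i, Module.End ℂ (W i)}
    (h : ∀ i, IsCov (d i) (l i) (a i) (z i) (Φ i) (g i))
    (hpure : ∀ i (α : ℂ), (Φ i).HasEigenvalue α → ‖α‖ ^ 2 = (Fintype.card κ : ℝ) ^ n i)
    (hsmall : ∀ I : Finset ι, I.Nonempty → SmallI c f N lam d n s a I)
    {B : Type} [AddCommGroup B] [Module ℂ B] {ΦB : Module.End ℂ B}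
    (hB : ∀ β, ΦB.HasEigenvalue β →
      IsAlgebraic ℚ β ∧ ∃ j : ℕ, ‖β‖ ^ 2 = (Fintype.card κ : ℝ) ^ j)
    (hlev : Lev (Fintype.card κ) lam ΦB) : NoRes (Fintype.card κ) Φ ΦB := by
  classical
  intro I hI α hα β hβ e m w hm heq
  obtain ⟨hβa, j, hβj⟩ := hB β hβ
  have hq1 : (1 : ℝ) < Fintype.card κ := by exact_mod_cast Fintype.one_lt_card (α := κ)
  have hq0 : (0 : ℝ) < Fintype.card κ := by linarith
  have hα0 : ∀ i ∈ I, α i ≠ 0 := by
    intro i hi h0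
    have h1 := hpure i _ (hα i hi)
    rw [h0, norm_zero, zero_pow two_ne_zero] at h1
    exact (pow_pos hq0 (n i)).ne h1
  obtain ⟨hx, fe, hfe⟩ := exists_small' hN hd hdN κ hf hz l a ha h (hsmall I hI) hα hα0
  -- the complex absolute values
  have hw : ∑ i ∈ I, n i + 2 * e + j = 2 * w := by
    have h1 := congrArg norm heq
    rw [norm_pow, norm_mul, norm_mul, norm_pow, norm_pow, Complex.norm_natCast, pow_mul',
      norm_prod] at h1
    have h2 := (pow_left_inj₀ (by positivity) (by positivity) hm.ne').mp h1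
    have h3 := congrArg (fun t => t ^ 2) h2
    rw [mul_pow, mul_pow, hβj, ← prod_pow, prod_congr rfl fun i hi => hpure i _ (hα i hi),
      prod_pow_eq_pow_sum, ← pow_mul, ← pow_mul, ← pow_add, ← pow_add] at h3
    have h4 := pow_right_injective₀ hq0 hq1.ne' h3
    omega
  set Q := ‖((Fintype.card κ : ℕ) : PadicAlgCl c)‖ with hQ
  have hQ0 : 0 < Q := norm_card_pos (c := c) (L := κ)
  have hβA : β ∈ AA := mem_algebraicClosure_iff.mpr hβa
  set β' : AA := ⟨β, hβA⟩ with hβ'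
  have hβ0 : β ≠ 0 := by
    intro h0
    rw [h0, norm_zero, zero_pow two_ne_zero] at hβj
    exact (pow_pos hq0 j).ne hβj
  -- the condition on the level
  have hlev' : Q ^ lam * ‖fe β'‖ ^ 2 ≤ Q ^ j := by
    have h1 := hlev β hβ
    have h2 : starRingEnd ℂ β ≠ 0 := by
      intro h0
      apply hβ0
      have h3 := congrArg (starRingEnd ℂ) h0
      rwa [Complex.conj_conj, map_zero] at h3
    have h3 : β * starRingEnd ℂ β = ((Fintype.card κ : ℕ) : ℂ) ^ j := by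
      rw [Complex.mul_conj, Complex.normSq_eq_norm_sq, hβj]
      push_cast
      rfl
    have h4 : (Fintype.card κ : ℂ) ^ lam * β / starRingEnd ℂ β * ((Fintype.card κ : ℕ) : ℂ) ^ j =
        (Fintype.card κ : ℂ) ^ lam * β ^ 2 := by
      rw [← h3]
      field_simp
    obtain ⟨x, hx⟩ : ∃ x : AA, (x : ℂ) = (Fintype.card κ : ℂ) ^ lam * β / starRingEnd ℂ β := by
      refine ⟨⟨_, mem_algebraicClosure_iff.mpr ?_⟩, rfl⟩
      exact (h1.tower_top (A := ℚ)).isAlgebraic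
    have h5 : x * ((Fintype.card κ : ℕ) : AA) ^ j = ((Fintype.card κ : ℕ) : AA) ^ lam * β' ^ 2 := by
      apply Subtype.ext
      push_cast
      rw [hx]
      exact h4
    have h6 : IsIntegral ℤ x := by
      have h7 : IsIntegral ℤ (algebraMap AA ℂ x) := by
        show IsIntegral ℤ (x : ℂ)
        rw [hx]
        exact h1
      exact (isIntegral_algebraMap_iff (algebraMap AA ℂ).injective).1 h7
    have h7 : ‖fe x‖ ≤ 1 := norm_int_le (map_isIntegral_int fe h6)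
    have h8 := congrArg norm (congrArg fe h5)
    rw [map_mul, map_mul, map_pow, map_pow, map_pow, map_natCast, norm_mul, norm_mul, norm_pow,
      norm_pow, norm_pow, ← hQ] at h8
    rw [← h8]
    exact mul_le_of_le_one_left (pow_nonneg hQ0.le _) h7
  have h1 : ((∏ i ∈ I.attach, (⟨α i.1, hx i.1 i.2⟩ : AA)) *
      ((Fintype.card κ : ℕ) : AA) ^ e * β') ^ m = ((Fintype.card κ : ℕ) : AA) ^ (m * w) := by
    apply Subtype.ext
    push_cast
    rw [← heq, ← prod_attach I]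
  have h2 := congrArg norm (congrArg fe h1)
  rw [map_pow, map_mul, map_mul, map_pow, map_pow, map_natCast, map_prod, norm_pow,
    norm_mul, norm_mul, norm_pow, norm_pow, norm_prod, ← hQ, pow_mul'] at h2
  set P := ∏ i ∈ I.attach, ‖fe ⟨α i.1, hx i.1 i.2⟩‖ with hP
  have hP0 : 0 ≤ P := prod_nonneg fun i _ => norm_nonneg _
  have h3 : P * Q ^ e * ‖fe β'‖ = Q ^ w :=
    (pow_left_inj₀ (mul_nonneg (mul_nonneg hP0 (pow_nonneg hQ0.le e)) (norm_nonneg _))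
      (pow_nonneg hQ0.le w) hm.ne').mp h2
  exact real_contra hQ0 hfe h3 hlev' hw

end Pool.Agent.N876.FL
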