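import Pool.Agent.N876.TC.Gal

/-!
# Tate classes on products, from a condition on the eigenvalues
-/

set_option autoImplicit false

namespace Pool.Agent.N876.FL

open Finset Polynomial TensorProduct Pool.Agent.N876.TC

/-- no product of eigenvalues is a power of `q` times a root of unity -/
def NoRes {ι : Type} (q : ℕ) {W : ι → Type} [∀ i, AddCommGroup (W i)] [∀ i, Module ℂ (W i)]
    {B : Type} [AddCommGroup B] [Module ℂ B] (Φ : ∀ i, Module.End ℂ (W i))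
    (ΦB : Module.End ℂ B) : Prop :=
  ∀ I : Finset ι, I.Nonempty → ∀ α : ι → ℂ, (∀ i ∈ I, (Φ i).HasEigenvalue (α i)) →
    ∀ β : ℂ, ΦB.HasEigenvalue β → ∀ e m w : ℕ, 0 < m →
      ((∏ i ∈ I, α i) * (q : ℂ) ^ e * β) ^ m ≠ (q : ℂ) ^ (m * w)

section main

variable {ι : Type} [Fintype ι] [DecidableEq ι]
  {K W : ι → Type} [∀ i, Fintype (K i)] [∀ i, AddCommGroup (W i)] [∀ i, Module ℂ (W i)]
  [∀ i, FiniteDimensional ℂ (W i)] {B : Type} [AddCommGroup B] [Module ℂ B]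
  [FiniteDimensional ℂ B]

theorem proj_main' {q : ℕ} {Φ : ∀ i, Module.End ℂ (W i)} {ΦB : Module.End ℂ B}
    (hres : NoRes q Φ ΦB) (deg : ∀ i, K i → ℕ) {m : ℕ} (hm : 0 < m) (w : ℕ)
    {v : (⨂[ℂ] i, ((K i → ℂ) × W i)) ⊗[ℂ] B}
    (hv : v ∈ ((MM (fun i => tot (q : ℂ) (deg i) (Φ i)) ΦB) ^ m).maxGenEigenspace
      ((q : ℂ) ^ (m * w))) :
    MM (fun i => (prj : Module.End ℂ ((K i → ℂ) × W i))) 1 v = v := by
  classical
  refine gen_main (fun i => tot (q : ℂ) (deg i) (Φ i)) (fun i => prj)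
    (fun i x => (Φ i).HasEigenvalue x) (fun i x => ∃ k, x = (q : ℂ) ^ deg i k)
    (fun i => tot_prj _ _ _) (fun i => prj_prj) (fun i x hx => fac_W hx) (fun i x hx => fac_K hx)
    ΦB m _ ?_ v hv
  intro I hI x hx1 hx2 β hβ heq
  have hx3 : ∀ i, ∃ e : ℕ, i ∉ I → x i = (q : ℂ) ^ e := by
    intro i
    by_cases hi : i ∈ I
    · exact ⟨0, fun h => absurd hi h⟩
    · obtain ⟨k, hk⟩ := hx2 i hi
      exact ⟨_, fun _ => hk⟩
  choose e he using hx3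
  have h1 : ∏ i, x i = (∏ i ∈ I, x i) * (q : ℂ) ^ (∑ i ∈ Iᶜ, e i) := by
    rw [← Finset.prod_mul_prod_compl I x, ← prod_pow_eq_pow_sum]
    congr 1
    exact prod_congr rfl fun i hi => he i (mem_compl.1 hi)
  rw [h1] at heq
  exact hres I hI x hx1 β hβ _ m w hm heq

variable [∀ i, DecidableEq (K i)]

/-- the generalised Tate classes -/
theorem gen_tate' {q : ℕ} (hq : 1 < q) {Φ : ∀ i, Module.End ℂ (W i)} {ΦB : Module.End ℂ B}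
    (hres : NoRes q Φ ΦB)
    (hB : ∀ β, ΦB.HasEigenvalue β → IsAlgebraic ℚ β ∧ ∃ j : ℕ, ‖β‖ ^ 2 = (q : ℝ) ^ j)
    (deg : ∀ i, K i → ℕ) {m : ℕ} (hm : 0 < m) (w : ℕ)
    {v : (⨂[ℂ] i, ((K i → ℂ) × W i)) ⊗[ℂ] B}
    (hv : v ∈ ((MM (fun i => tot (q : ℂ) (deg i) (Φ i)) ΦB) ^ m).maxGenEigenspace
      ((q : ℂ) ^ (m * w))) :
    v = ∑ k : ∀ i, K i, (ev k : ⨂[ℂ] i, ((K i → ℂ) × W i)) ⊗ₜ[ℂ] (cmp k v) ∧
      ∀ k : ∀ i, K i,
        (∑ i, deg i (k i) ≤ w ∧ cmp k v ∈ (ΦB ^ m).maxGenEigenspace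
          ((q : ℂ) ^ (m * (w - ∑ i, deg i (k i))))) ∨ cmp k v = 0 := by
  have hq0 : (q : ℂ) ≠ 0 := by exact_mod_cast (by omega : q ≠ 0)
  have h1 := proj_main' hres deg hm w hv
  rw [MM_prj] at h1
  refine ⟨h1.symm, ?_⟩
  intro k
  have h2 := cmp_gen hq0 deg Φ ΦB k m hv
  rcases le_or_gt (∑ i, deg i (k i)) w with hk | hk
  · left
    refine ⟨hk, ?_⟩
    convert h2 using 2
    rw [eq_div_iff (pow_ne_zero _ (pow_ne_zero _ hq0)), ← pow_mul, ← pow_add]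
    congr 1
    rw [mul_comm (∑ i, deg i (k i)) m, ← mul_add]
    congr 1
    omega
  · right
    refine small_zero hq hB hm ?_ h2
    rw [norm_div, norm_pow, norm_pow, norm_pow, Complex.norm_natCast, ← pow_mul]
    have hq' : (0 : ℝ) < q := by exact_mod_cast (by omega : 0 < q)
    rw [div_lt_one (by positivity)]
    refine pow_lt_pow_right₀ (by exact_mod_cast hq) ?_
    rw [mul_comm (∑ i, deg i (k i)) m]
    exact Nat.mul_lt_mul_of_pos_left hk hm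

/-- the Tate classes -/
theorem gal_tate' {q : ℕ} (hq : 1 < q) {Γ : Type} [Group Γ] (χ : Γ →* ℂˣ) (σ : Γ)
    (hσ : ((χ σ : ℂˣ) : ℂ) = (q : ℂ))
    (ρ : ∀ i, Γ →* Module.End ℂ (W i)) (ρB : Γ →* Module.End ℂ B)
    (hres : NoRes q (fun i => ρ i σ) (ρB σ))
    (hB : ∀ β, (ρB σ).HasEigenvalue β → IsAlgebraic ℚ β ∧ ∃ j : ℕ, ‖β‖ ^ 2 = (q : ℝ) ^ j)
    (deg : ∀ i, K i → ℕ) (Γ' : Subgroup Γ) [Γ'.FiniteIndex] (w : ℕ)
    {v : (⨂[ℂ] i, ((K i → ℂ) × W i)) ⊗[ℂ] B}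
    (hv : ∀ γ ∈ Γ', MM (fun i => tot ((χ γ : ℂˣ) : ℂ) (deg i) (ρ i γ)) (ρB γ) v =
      ((χ γ : ℂˣ) : ℂ) ^ w • v) :
    v = ∑ k : ∀ i, K i, (ev k : ⨂[ℂ] i, ((K i → ℂ) × W i)) ⊗ₜ[ℂ] (cmp k v) ∧
      ∀ k : ∀ i, K i,
        (∑ i, deg i (k i) ≤ w ∧ ∀ γ ∈ Γ', ρB γ (cmp k v) =
          ((χ γ : ℂˣ) : ℂ) ^ (w - ∑ i, deg i (k i)) • cmp k v) ∨ cmp k v = 0 := by
  obtain ⟨m, hm, hmΓ⟩ := Subgroup.exists_pow_mem_of_index_ne_zero
    (Subgroup.FiniteIndex.index_ne_zero (H := Γ')) σ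
  have hm0 : 0 < m := hm
  have h1 := hv (σ ^ m) hmΓ.2
  rw [← act_pow, map_pow, Units.val_pow_eq_pow_val, hσ, ← pow_mul] at h1
  have h2 : v ∈ ((MM (fun i => tot (q : ℂ) (deg i) (ρ i σ)) (ρB σ)) ^
      m).maxGenEigenspace ((q : ℂ) ^ (m * w)) := by
    exact mem_gen_of_eig _ h1
  obtain ⟨h3, h4⟩ := gen_tate' hq hres hB deg hm0 w h2
  refine ⟨h3, ?_⟩
  intro k
  rcases h4 k with ⟨h5, -⟩ | h5
  · left
    refine ⟨h5, ?_⟩
    intro γ hγ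
    have h6 := congrArg (cmp k) (hv γ hγ)
    rw [cmp_tot, map_smul] at h6
    have h7 : ((χ γ : ℂˣ) : ℂ) ^ (∑ i, deg i (k i)) ≠ 0 := pow_ne_zero _ (Units.ne_zero _)
    have h8 : ((χ γ : ℂˣ) : ℂ) ^ w = ((χ γ : ℂˣ) : ℂ) ^ (∑ i, deg i (k i)) *
        ((χ γ : ℂˣ) : ℂ) ^ (w - ∑ i, deg i (k i)) := by
      rw [← pow_add]
      congr 1
      omega
    rw [h8, mul_smul] at h6
    exact smul_right_injective _ h7 h6
  · right
    exact h5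

end main

end Pool.Agent.N876.FL
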